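import Mathlib

/-!
Characters of subgroups of a finite group, as functions on the whole group.
-/

namespace Pool.Agent.Lib.MP_d87a8f_pr.E

open Finset

variable {G : Type} [Group G] [Fintype G]

/-- `f` agrees on `B` with the trace of a matrix representation of `B` -/
def Ch (B : Subgroup G) (f : G → ℂ) : Prop :=
  ∃ (d : ℕ) (ρ : B →* Matrix (Fin d) (Fin d) ℂ), ∀ x : B, f x = (ρ x).trace

open Classical in
/-- the elements of a subgroup as a finite set -/
noncomputable def els (B : Subgroup G) : Finset G := univ.filter (· ∈ B)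

/-- the bilinear form of class functions on `B` -/
noncomputable def ip (B : Subgroup G) (f g : G → ℂ) : ℂ :=
  (Nat.card B : ℂ)⁻¹ * ∑ x ∈ els B, f x * g x⁻¹

/-- irreducible characters of `B` -/
def Ir (B : Subgroup G) (f : G → ℂ) : Prop := Ch B f ∧ ip B f f = 1

/-- class functions on `B` -/
def Cl (B : Subgroup G) (f : G → ℂ) : Prop := ∀ g ∈ B, ∀ x ∈ B, f (g * x * g⁻¹) = f x

/-- linear characters of `B` -/
def Lin (B : Subgroup G) (f : G → ℂ) : Prop :=
  f 1 = 1 ∧ ∀ x ∈ B, ∀ y ∈ B, f (x * y) = f x * f y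

/-- `f` is invariant on `B` under right multiplication by `K` -/
def KInv (B K : Subgroup G) (f : G → ℂ) : Prop := ∀ y ∈ B, ∀ x ∈ K, f (y * x) = f y

/-- the conjugate function -/
def cj (g : G) (f : G → ℂ) : G → ℂ := fun x => f (g * x * g⁻¹)

/-- the elements of `N` which fix the function `f` on the normal subgroup `B` -/
def stab (N B : Subgroup G) [hB : B.Normal] (f : G → ℂ) : Subgroup G where
  carrier := {g | g ∈ N ∧ ∀ x ∈ B, f (g * x * g⁻¹) = f x}
  one_mem' := ⟨N.one_mem, fun x _ => by simp⟩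
  mul_mem' := by
    rintro a b ⟨ha, ha'⟩ ⟨hb, hb'⟩
    refine ⟨N.mul_mem ha hb, fun x hx => ?_⟩
    have h := ha' (b * x * b⁻¹) (hB.conj_mem x hx b)
    rw [← hb' x hx, ← h]
    congr 1
    group
  inv_mem' := by
    rintro a ⟨ha, ha'⟩
    refine ⟨N.inv_mem ha, fun x hx => ?_⟩
    have h := ha' (a⁻¹ * x * a⁻¹⁻¹) (hB.conj_mem x hx a⁻¹)
    rw [← h]
    congr 1
    group

omit [Fintype G] in
theorem mem_stab {N B : Subgroup G} [B.Normal] {f : G → ℂ} {g : G} :
    g ∈ stab N B f ↔ g ∈ N ∧ ∀ x ∈ B, f (g * x * g⁻¹) = f x := Iff.rfl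

theorem mem_els {B : Subgroup G} {x : G} : x ∈ els B ↔ x ∈ B := by
  simp [els]

theorem card_els (B : Subgroup G) : (els B).card = Nat.card B := by
  classical
  rw [Nat.card_eq_fintype_card, Fintype.card_subtype]
  congr 1

/-- a complete list of the irreducible characters of `B`, with the facts that are used -/
structure Bas (B : Subgroup G) where
  s : ℕ
  χ : Fin s → G → ℂ
  le : s ≤ Nat.card B
  ir : ∀ i, Ir B (χ i)
  orth : ∀ i j, i ≠ j → ip B (χ i) (χ j) = 0
  full : ∀ f : G → ℂ, Cl B f → ∀ x ∈ B, f x = ∑ i, ip B f (χ i) * χ i x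
  conv : ∀ i, ∀ x ∈ B, ∀ y ∈ B,
    χ i 1 * ∑ g ∈ els B, χ i (x * (g * y * g⁻¹)) = (Nat.card B : ℂ) * (χ i x * χ i y)

end Pool.Agent.Lib.MP_d87a8f_pr.E
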