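import Mathlib
import Pool.Agent.Lib.MP_d87a8f_pr.E.Defs

/-!
Closure properties of characters and the elementary rules for the bilinear form.
-/

namespace Pool.Agent.Lib.MP_d87a8f_pr.E

open Finset

variable {G : Type} [Group G] [Fintype G] {B B' : Subgroup G} {f g : G → ℂ}

omit [Fintype G] in
theorem ch_of {ι : Type} [Fintype ι] [DecidableEq ι] (ρ : B →* Matrix ι ι ℂ)
    (h : ∀ x : B, f x = (ρ x).trace) : Ch B f :=
  ⟨_, (Matrix.reindexAlgEquiv ℂ ℂ (Fintype.equivFin ι)).toMulEquiv.toMonoidHom.comp ρ, fun x =>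
    (h x).trans (Equiv.sum_comp (Fintype.equivFin ι).symm fun i => ρ x i i).symm⟩

omit [Fintype G] in
theorem Ch.cl (h : Ch B f) : Cl B f := by
  obtain ⟨d, ρ, h⟩ := h
  intro g hg x hx
  have h1 := h (⟨g, hg⟩ * ⟨x, hx⟩ * ⟨g, hg⟩⁻¹)
  rw [map_mul, Matrix.trace_mul_comm, ← map_mul, ← mul_assoc, inv_mul_cancel, one_mul] at h1
  exact h1.trans (h ⟨x, hx⟩).symm

omit [Fintype G] in
theorem Ch.congr (h : Ch B f) (e : ∀ x ∈ B, g x = f x) : Ch B g := by
  obtain ⟨d, ρ, h⟩ := h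
  exact ⟨d, ρ, fun x => (e x x.2).trans (h x)⟩

omit [Fintype G] in
theorem Ch.mono (h : Ch B f) (hB : B' ≤ B) : Ch B' f := by
  obtain ⟨d, ρ, h⟩ := h
  exact ⟨d, ρ.comp (Subgroup.inclusion hB), fun x => h (Subgroup.inclusion hB x)⟩

omit [Fintype G] in
/-- Kronecker product, reindexed by `finProdFinEquiv` -/
theorem Ch.mul (hf : Ch B f) (hg : Ch B g) : Ch B (fun x => f x * g x) := by
  obtain ⟨d, ρ, h⟩ := hf
  obtain ⟨e, σ, h'⟩ := hg
  refine ch_of
    { toFun := fun x => Matrix.kroneckerMap (· * ·) (ρ x) (σ x)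
      map_one' := by rw [map_one, map_one, Matrix.one_kronecker_one]
      map_mul' := fun x y => by rw [map_mul, map_mul, Matrix.mul_kronecker_mul] } fun x => ?_
  rw [h, h']
  exact (Matrix.trace_kronecker _ _).symm

omit [Fintype G] in
/-- transpose of the inverse -/
theorem Ch.inv (hf : Ch B f) : Ch B (fun x => f x⁻¹) := by
  obtain ⟨d, ρ, h⟩ := hf
  exact ⟨d,
    { toFun := fun x => (ρ x⁻¹).transpose
      map_one' := by rw [inv_one, map_one, Matrix.transpose_one]
      map_mul' := fun x y => by rw [mul_inv_rev, map_mul, Matrix.transpose_mul] },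
    fun x => (h x⁻¹).trans (Matrix.trace_transpose _).symm⟩

omit [Fintype G] in
theorem Ch.conj [B.Normal] (hf : Ch B f) (a : G) : Ch B (cj a f) := by
  obtain ⟨d, ρ, h⟩ := hf
  exact ⟨d, ρ.comp (MulAut.conjNormal a : MulAut B).toMonoidHom,
    fun x => h ((MulAut.conjNormal a : MulAut B) x)⟩

omit [Fintype G] in
theorem Ch.deg (hf : Ch B f) : ∃ n : ℕ, f 1 = n := by
  obtain ⟨d, ρ, h⟩ := hf
  refine ⟨d, (h 1).trans ?_⟩
  rw [map_one, Matrix.trace_one, Fintype.card_fin]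

/-- the average of the representation with character `f x * g x⁻¹` is an idempotent matrix, and
the trace of an idempotent is its rank -/
theorem Ch.ip_nat (hf : Ch B f) (hg : Ch B g) : ∃ n : ℕ, ip B f g = n := by
  classical
  obtain ⟨d, ρ, h⟩ := hf.mul hg.inv
  have c0 : (Nat.card B : ℂ) ≠ 0 := Nat.cast_ne_zero.2 Nat.card_pos.ne'
  have h1 : ∀ x : B, ρ x * ∑ y : B, ρ y = ∑ y : B, ρ y := fun x => by
    rw [mul_sum]
    exact Fintype.sum_equiv (Equiv.mulLeft x) _ _ fun y => (map_mul ρ x y).symm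
  have h2 : IsIdempotentElem ((Nat.card B : ℂ)⁻¹ • ∑ y : B, ρ y) := by
    rw [IsIdempotentElem, smul_mul_smul_comm, sum_mul, sum_congr rfl fun x _ => h1 x, sum_const,
      card_univ, ← Nat.card_eq_fintype_card, ← Nat.cast_smul_eq_nsmul ℂ, smul_smul,
      inv_mul_cancel_right₀ c0]
  have h3 := (LinearMap.IsIdempotentElem.isProj_range _ (h2.map Matrix.toLinAlgEquiv')).trace
  refine ⟨_, Eq.trans ?_ h3⟩
  rw [ip, sum_subtype (els B) (p := (· ∈ B)) fun _ => mem_els, sum_congr rfl fun x _ => h x,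
    ← Matrix.trace_sum, ← smul_eq_mul, ← Matrix.trace_smul]
  exact (Matrix.trace_toLin'_eq _).symm

theorem ip_congr {f' g' : G → ℂ} (e1 : ∀ x ∈ B, f x = f' x) (e2 : ∀ x ∈ B, g x = g' x) :
    ip B f g = ip B f' g' := by
  unfold ip
  rw [sum_congr rfl fun x hx => by
    rw [e1 x (mem_els.1 hx), e2 _ (B.inv_mem (mem_els.1 hx))]]

theorem ip_comm (B : Subgroup G) (f g : G → ℂ) : ip B f g = ip B g f := by
  unfold ip
  congr 1
  exact sum_equiv (Equiv.inv G) (fun x => by simp [mem_els]) fun x _ => by simp [mul_comm]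

theorem ip_cj [B.Normal] (a : G) (f g : G → ℂ) : ip B (cj a f) (cj a g) = ip B f g := by
  unfold ip
  congr 1
  refine sum_equiv (MulAut.conj a).toEquiv (fun x => ?_) fun x _ => by simp [cj, mul_assoc]
  rw [mem_els, mem_els]
  have n : B.Normal := inferInstance
  refine ⟨fun hx => n.conj_mem x hx a, fun hx => ?_⟩
  simpa [mul_assoc] using n.conj_mem _ hx a⁻¹

theorem ip_mul (B : Subgroup G) (f g h : G → ℂ) :
    ip B (fun x => f x * g x) h = ip B g (fun x => f x⁻¹ * h x) := by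
  unfold ip
  congr 1
  exact sum_congr rfl fun x _ => by beta_reduce; rw [inv_inv]; ring

theorem ip_smul (B : Subgroup G) (c : ℂ) (f g : G → ℂ) :
    ip B (fun x => c * f x) g = c * ip B f g := by
  simp only [ip, mul_assoc, ← mul_sum]
  ring

theorem ip_sum (B : Subgroup G) {ι : Type} (s : Finset ι) (c : ι → ℂ) (f : ι → G → ℂ)
    (g : G → ℂ) : ip B (fun x => ∑ i ∈ s, c i * f i x) g = ∑ i ∈ s, c i * ip B (f i) g := by
  simp only [ip, sum_mul, mul_sum]
  rw [sum_comm]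
  exact sum_congr rfl fun i _ => sum_congr rfl fun x _ => by ring

omit [Fintype G] in
theorem Lin.inv_mul (h : Lin B f) {x : G} (hx : x ∈ B) : f x⁻¹ * f x = 1 := by
  rw [← h.2 _ (B.inv_mem hx) x hx, inv_mul_cancel, h.1]

omit [Fintype G] in
theorem Lin.mono (h : Lin B f) (hB : B' ≤ B) : Lin B' f := by
  exact ⟨h.1, fun x hx y hy => h.2 x (hB hx) y (hB hy)⟩

omit [Fintype G] in
theorem Lin.conj [B.Normal] (h : Lin B f) (a : G) : Lin B (cj a f) := by
  refine ⟨by simp [cj, h.1], fun x hx y hy => ?_⟩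
  have n : B.Normal := inferInstance
  simp only [cj]
  rw [← h.2 _ (n.conj_mem x hx a) _ (n.conj_mem y hy a)]
  congr 1
  group

theorem Lin.ir (h : Lin B f) : Ir B f := by
  refine ⟨⟨1,
    { toFun := fun x => f x • 1
      map_one' := by simp [h.1]
      map_mul' := fun x y => by
        rw [Subgroup.coe_mul, h.2 _ x.2 _ y.2, smul_mul_smul_comm, one_mul] },
    fun x => by simp⟩, ?_⟩
  rw [ip, sum_congr rfl fun x hx => (mul_comm _ _).trans (h.inv_mul (mem_els.1 hx)), sum_const,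
    card_els, nsmul_eq_mul, mul_one, inv_mul_cancel₀ (Nat.cast_ne_zero.2 Nat.card_pos.ne')]

theorem Ir.conj [B.Normal] (h : Ir B f) (a : G) : Ir B (cj a f) := by
  exact ⟨h.1.conj a, (ip_cj a f f).trans h.2⟩

theorem Ir.mul_lin (h : Ir B f) (hl : Lin B g) : Ir B (fun x => f x * g x) := by
  refine ⟨h.1.mul hl.ir.1, Eq.trans ?_ h.2⟩
  unfold ip
  congr 1
  refine sum_congr rfl fun x hx => ?_
  linear_combination f x * f x⁻¹ * hl.inv_mul (mem_els.1 hx)

end Pool.Agent.Lib.MP_d87a8f_pr.E
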