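import Mathlib
import Pool.Agent.Lib.MP_d87a8f_pr.Q.Wed
import Pool.Agent.Lib.MP_d87a8f_pr.E.Char

/-!
The list of irreducible characters of a subgroup.
-/

namespace Pool.Agent.Lib.MP_d87a8f_pr.E

open Finset

variable {G : Type} [Group G] [Fintype G]

section
variable [DecidableEq G] (I : Q.Irr G)

theorem bas_orth (i j : Fin I.s) : ∑ x : G, (I.ρ i x).trace * (I.ρ j x⁻¹).trace =
    if i = j then (Fintype.card G : ℂ) else 0 := by
  split_ifs with h
  · subst h
    have h1 := congrArg Matrix.trace (I.schur i).trace_sum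
    have hd : (I.d i : ℂ) ≠ 0 := Nat.cast_ne_zero.2 (I.pos i).ne'
    simpa only [Matrix.trace_sum, Matrix.trace_smul, smul_eq_mul, Matrix.trace_one,
      Fintype.card_fin, div_mul_cancel₀ _ hd] using h1
  · simp only [Matrix.trace, Matrix.diag, sum_mul_sum]
    rw [sum_comm]
    refine sum_eq_zero fun a _ => ?_
    rw [sum_comm]
    exact sum_eq_zero fun c _ => I.cross i j h a a c c

theorem bas_conv (i : Fin I.s) (x y : G) :
    (I.d i : ℂ) * ∑ g : G, (I.ρ i (x * (g * y * g⁻¹))).trace =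
      (Fintype.card G : ℂ) * ((I.ρ i x).trace * (I.ρ i y).trace) := by
  have hd : (I.d i : ℂ) ≠ 0 := Nat.cast_ne_zero.2 (I.pos i).ne'
  simp only [map_mul]
  rw [← Matrix.trace_sum, ← mul_sum, (I.schur i).conj_sum, mul_smul_comm, mul_one,
    Matrix.trace_smul, smul_eq_mul]
  field_simp

theorem bas_full (f : G → ℂ) (hf : ∀ g x, f (g * x * g⁻¹) = f x) (x : G) :
    (Fintype.card G : ℂ) * f x = ∑ i, (∑ y, f y * (I.ρ i y⁻¹).trace) * (I.ρ i x).trace := by
  have hG : (Fintype.card G : ℂ) ≠ 0 := Nat.cast_ne_zero.2 Fintype.card_ne_zero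
  have h1 : ∀ g : G, ∑ y, f y * ∑ i, (I.d i : ℂ) * (I.ρ i (x * (g * y⁻¹ * g⁻¹))).trace =
      Fintype.card G * f x := fun g => by
    simp only [I.reg]
    rw [sum_eq_single (g⁻¹ * x * g⁻¹⁻¹), hf, if_pos (by group), mul_comm]
    · intro y _ hy
      rw [if_neg fun h => hy ?_, mul_zero]
      rw [eq_inv_of_mul_eq_one_left h]
      group
    · exact fun h => absurd (mem_univ _) h
  have h2 := sum_congr rfl fun g (_ : g ∈ univ) => h1 g
  rw [sum_const, card_univ, nsmul_eq_mul, sum_comm] at h2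
  refine mul_left_cancel₀ hG (h2.symm.trans ?_)
  simp only [sum_mul, mul_sum]
  rw [sum_comm (s := (univ : Finset (Fin I.s)))]
  refine sum_congr rfl fun y _ => ?_
  rw [sum_comm]
  refine sum_congr rfl fun i _ => ?_
  rw [← mul_sum, ← mul_sum, bas_conv]
  ring

end

/-- take `Q.exists_irr` for the type `B` and extend the traces by zero. `schur` gives
`∑ g, ρ g * Y * ρ g⁻¹ = (|B| / d) * trace Y`, hence `conv`; `full`: write
`f x = ∑ y, f y * [x * y⁻¹ = 1]`, expand the bracket by `reg`, average over the conjugates of `y`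
with `conv`; `le`: `reg` at `1` is `∑ d ^ 2 = |B|` -/
theorem exists_bas (B : Subgroup G) : Nonempty (Bas B) := by
  classical
  obtain ⟨I⟩ := Q.exists_irr B
  let χ : Fin I.s → G → ℂ := fun i x => if h : x ∈ B then (I.ρ i ⟨x, h⟩).trace else 0
  have hχ : ∀ i (x : B), χ i x = (I.ρ i x).trace := fun i x => dif_pos x.2
  have hs : ∀ F : G → ℂ, ∑ x ∈ els B, F x = ∑ x : B, F x := fun F =>
    sum_subtype (els B) (fun _ => mem_els) F
  have hc : (Fintype.card B : ℂ) ≠ 0 := Nat.cast_ne_zero.2 Fintype.card_ne_zero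
  have hip : ∀ (f : G → ℂ) j, ip B f (χ j) =
      (Fintype.card B : ℂ)⁻¹ * ∑ y : B, f y * (I.ρ j y⁻¹).trace := fun f j => by
    rw [ip, hs, Nat.card_eq_fintype_card]
    exact congrArg _ (sum_congr rfl fun y _ => congrArg _ (hχ j y⁻¹))
  refine ⟨⟨I.s, χ, ?_, fun i => ⟨⟨_, I.ρ i, hχ i⟩, ?_⟩, fun i j h => ?_, fun f hf x hx => ?_,
    fun i x hx y hy => ?_⟩⟩
  · rw [Nat.card_eq_fintype_card, ← I.sum_sq]
    simpa using sum_le_sum fun i (_ : i ∈ univ) => Nat.one_le_pow 2 _ (I.pos i)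
  · simp only [hip, hχ, bas_orth, if_true, inv_mul_cancel₀ hc]
  · simp only [hip, hχ, bas_orth, if_neg h, mul_zero]
  · refine mul_left_cancel₀ hc ((bas_full I (fun y => f y) (fun g y => hf g g.2 y y.2)
      ⟨x, hx⟩).trans ?_)
    rw [mul_sum]
    refine sum_congr rfl fun i _ => ?_
    rw [hip, ← mul_assoc, mul_inv_cancel_left₀ hc, hχ i ⟨x, hx⟩]
  · have h1 : χ i 1 = I.d i := by simpa using hχ i 1
    rw [hs, h1, Nat.card_eq_fintype_card, hχ i ⟨x, hx⟩, hχ i ⟨y, hy⟩, ← bas_conv]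
    exact congrArg _ (sum_congr rfl fun g _ => hχ i (⟨x, hx⟩ * (g * ⟨y, hy⟩ * g⁻¹)))

end Pool.Agent.Lib.MP_d87a8f_pr.E
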