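import Mathlib
import Pool.Agent.Lib.MP_d87a8f_pr.E.Bas

/-!
Constituents of characters.
-/

namespace Pool.Agent.Lib.MP_d87a8f_pr.E

open Finset
open scoped commutatorElement

variable {G : Type} [Group G] [Fintype G] {B B' : Subgroup G} {f g θ : G → ℂ}

theorem Bas.ip_full (I : Bas B) (hf : Cl B f) (hB : B' ≤ B) (g : G → ℂ) :
    ip B' f g = ∑ i, ip B f (I.χ i) * ip B' (I.χ i) g := by
  rw [← ip_sum]
  exact ip_congr (fun x hx => I.full f hf x (hB hx)) (fun _ _ => rfl)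

omit [Fintype G] in
theorem card_ne (B : Subgroup G) [Finite G] : (Nat.card B : ℂ) ≠ 0 :=
  Nat.cast_ne_zero.mpr Nat.card_pos.ne'

theorem sum_els_left (B : Subgroup G) {a : G} (ha : a ∈ B) (F : G → ℂ) :
    ∑ x ∈ els B, F (a * x) = ∑ x ∈ els B, F x :=
  Finset.sum_equiv (Equiv.mulLeft a)
    (fun x => by rw [mem_els, mem_els]; exact (B.mul_mem_cancel_left ha).symm) (fun _ _ => rfl)

theorem sum_els_conj (K : Subgroup G) [hK : K.Normal] (a : G) (F : G → ℂ) :
    ∑ x ∈ els K, F (a * x * a⁻¹) = ∑ x ∈ els K, F x :=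
  Finset.sum_equiv (MulAut.conj a).toEquiv
    (fun x => by
      rw [mem_els, mem_els]
      refine ⟨fun h => hK.conj_mem x h a, fun h => ?_⟩
      have h2 := hK.conj_mem _ h a⁻¹
      simpa [mul_assoc] using h2) (fun _ _ => rfl)

/-- `1 = ip f f = ∑ m i ^ 2` with natural numbers `m i` -/
theorem Ir.exists_eq (I : Bas B) (h : Ir B f) : ∃ i, ∀ x ∈ B, f x = I.χ i x := by
  choose m hm using fun i => h.1.ip_nat (I.ir i).1
  have h1 := I.ip_full h.1.cl le_rfl f
  rw [h.2] at h1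
  have h2 : ∑ i, m i * m i = 1 := by
    have : ((∑ i, m i * m i : ℕ) : ℂ) = 1 := by
      rw [h1]
      push_cast
      exact Finset.sum_congr rfl fun i _ => by rw [ip_comm B (I.χ i), hm i]
    exact_mod_cast this
  obtain ⟨i, -, hi⟩ := Finset.exists_ne_zero_of_sum_ne_zero (s := univ)
    (f := fun i => m i * m i) (by rw [h2]; exact one_ne_zero)
  have h3 := Finset.add_sum_erase univ (fun i => m i * m i) (Finset.mem_univ i)
  rw [h2] at h3
  have h4 : m i * m i = 1 := by omega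
  have h5 : ∑ j ∈ univ.erase i, m j * m j = 0 := by omega
  refine ⟨i, fun x hx => ?_⟩
  rw [I.full f h.1.cl x hx, Finset.sum_eq_single i]
  · rw [hm i, Nat.eq_one_of_mul_eq_one_left h4, Nat.cast_one, one_mul]
  · intro j _ hj
    have := (Finset.sum_eq_zero_iff.mp h5) j (Finset.mem_erase.mpr ⟨hj, Finset.mem_univ j⟩)
    rw [hm j, mul_self_eq_zero.mp this, Nat.cast_zero, zero_mul]
  · intro hn
    exact absurd (Finset.mem_univ i) hn

theorem Ir.eq_of_ip (hf : Ir B f) (hg : Ir B g) (h : ip B f g ≠ 0) : ∀ x ∈ B, f x = g x := by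
  obtain ⟨I⟩ := exists_bas B
  obtain ⟨i, hi⟩ := hf.exists_eq I
  obtain ⟨j, hj⟩ := hg.exists_eq I
  rw [ip_congr hi hj] at h
  have hij : i = j := by
    by_contra hne
    exact h (I.orth i j hne)
  intro x hx
  rw [hi x hx, hj x hx, hij]

/-- a representation of dimension zero has the zero character -/
theorem Ir.deg_pos (h : Ir B f) : ∃ n : ℕ, 0 < n ∧ f 1 = n := by
  obtain ⟨⟨d, ρ, hρ⟩, h1⟩ := h
  refine ⟨d, Nat.pos_of_ne_zero ?_, ?_⟩
  · rintro rfl
    have h0 : ∀ x ∈ els B, f x * f x⁻¹ = 0 := fun x hx => by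
      have := hρ ⟨x, mem_els.mp hx⟩
      rw [Matrix.trace, Finset.univ_eq_empty, Finset.sum_empty] at this
      rw [show f x = 0 from this, zero_mul]
    rw [ip, Finset.sum_eq_zero h0, mul_zero] at h1
    exact zero_ne_one h1
  · have := hρ 1
    rw [map_one, Matrix.trace_one, Fintype.card_fin] at this
    exact this

theorem Ir.conv (h : Ir B f) {x y : G} (hx : x ∈ B) (hy : y ∈ B) :
    f 1 * ∑ g ∈ els B, f (x * (g * y * g⁻¹)) = (Nat.card B : ℂ) * (f x * f y) := by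
  obtain ⟨I⟩ := exists_bas B
  obtain ⟨i, hi⟩ := h.exists_eq I
  rw [hi 1 B.one_mem, hi x hx, hi y hy, ← I.conv i x hx y hy]
  refine congrArg _ (Finset.sum_congr rfl fun g hg => hi _ ?_)
  have hg' := mem_els.mp hg
  exact B.mul_mem hx (B.mul_mem (B.mul_mem hg' hy) (B.inv_mem hg'))

/-- matrices of size one -/
theorem Ir.lin_of_deg (h : Ir B f) (h1 : f 1 = 1) : Lin B f := by
  obtain ⟨⟨d, ρ, hρ⟩, -⟩ := h
  have hd : d = 1 := by
    have := hρ 1
    rw [map_one, Matrix.trace_one, Fintype.card_fin] at this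
    have h2 : (d : ℂ) = 1 := this.symm.trans h1
    exact_mod_cast h2
  subst hd
  refine ⟨h1, fun x hx y hy => ?_⟩
  have e1 : f x = (ρ ⟨x, hx⟩).trace := hρ ⟨x, hx⟩
  have e2 : f y = (ρ ⟨y, hy⟩).trace := hρ ⟨y, hy⟩
  have e3 : f (x * y) = (ρ (⟨x, hx⟩ * ⟨y, hy⟩)).trace := hρ (⟨x, hx⟩ * ⟨y, hy⟩)
  rw [e1, e2, e3, map_mul, Matrix.trace_fin_one, Matrix.trace_fin_one, Matrix.trace_fin_one,
    Matrix.mul_apply, Fin.sum_univ_one]

/-- `conv` gives `f 1 * f (x * y) = f x * f y`, so `ip f f = f 1 ^ 2` -/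
theorem Ir.lin_of_comm (h : Ir B f) {K : Subgroup G} (hK : ⁅B, B⁆ ≤ K) (hi : KInv B K f) :
    Lin B f := by
  have h1 : ∀ x ∈ B, ∀ y ∈ B, f 1 * f (x * y) = f x * f y := by
    intro x hx y hy
    have h2 := h.conv hx hy
    have h3 : ∀ g ∈ els B, f (x * (g * y * g⁻¹)) = f (x * y) := fun g hg => by
      rw [← hi (x * y) (B.mul_mem hx hy) ⁅y⁻¹, g⁆
        (hK (Subgroup.commutator_mem_commutator (B.inv_mem hy) (mem_els.mp hg))),
        commutatorElement_def]
      refine congrArg f ?_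
      group
    rw [Finset.sum_congr rfl h3, Finset.sum_const, card_els, nsmul_eq_mul, mul_left_comm] at h2
    exact mul_left_cancel₀ (card_ne B) h2
  have h4 : ip B f f = f 1 * f 1 := by
    have h5 : ∀ x ∈ els B, f x * f x⁻¹ = f 1 * f 1 := fun x hx => by
      rw [← h1 x (mem_els.mp hx) x⁻¹ (B.inv_mem (mem_els.mp hx)), mul_inv_cancel]
    rw [ip, Finset.sum_congr rfl h5, Finset.sum_const, card_els, nsmul_eq_mul,
      inv_mul_cancel_left₀ (card_ne B)]
  obtain ⟨n, -, hn⟩ := h.deg_pos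
  rw [h.2, hn] at h4
  have h6 : n * n = 1 := by exact_mod_cast h4.symm
  refine h.lin_of_deg ?_
  rw [hn, Nat.eq_one_of_mul_eq_one_left h6, Nat.cast_one]

/-- the average of `θ (y * x)` over `x ∈ K` is `c * θ y` by `conv`, and `ip f θ = c * ip f θ` -/
theorem Ir.kinv (hθ : Ir B θ) {K : Subgroup G} [K.Normal] (hKB : K ≤ B) (hK : KInv B K f)
    (h : ip B f θ ≠ 0) : KInv B K θ := by
  have hn : K.Normal := inferInstance
  obtain ⟨n, hn0, hθ1⟩ := hθ.deg_pos
  have hθ0 : θ 1 ≠ 0 := by rw [hθ1]; exact Nat.cast_ne_zero.mpr hn0.ne'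
  have h1 : ∀ y ∈ B, θ 1 * ∑ x ∈ els K, θ (y * x) = θ y * ∑ x ∈ els K, θ x := by
    intro y hy
    have h2 := Finset.sum_congr rfl
      (fun x (hx : x ∈ els K) => hθ.conv hy (hKB (mem_els.mp hx)))
    rw [← Finset.mul_sum, ← Finset.mul_sum, ← Finset.mul_sum, Finset.sum_comm,
      Finset.sum_congr rfl (fun g _ => sum_els_conj K g (fun x => θ (y * x))), Finset.sum_const,
      card_els, nsmul_eq_mul, mul_left_comm] at h2
    exact mul_left_cancel₀ (card_ne B) h2
  have hT : ∑ y ∈ els B, f y * θ y⁻¹ ≠ 0 := fun h0 => h (by rw [ip, h0, mul_zero])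
  have h3 : ∀ x ∈ els K, ∑ y ∈ els B, f y * θ (y⁻¹ * x) = ∑ y ∈ els B, f y * θ y⁻¹ := by
    intro x hx
    have hx' := mem_els.mp hx
    rw [← sum_els_left B (hKB hx') (fun y => f y * θ (y⁻¹ * x))]
    refine Finset.sum_congr rfl fun y hy => ?_
    have e1 : x * y = y * (y⁻¹ * x * y⁻¹⁻¹) := by group
    have e2 : (x * y)⁻¹ * x = y⁻¹ := by group
    rw [e2, e1, hK y (mem_els.mp hy) _ (hn.conj_mem x hx' y⁻¹)]
  have h4 : ∑ x ∈ els K, θ x = θ 1 * Nat.card K := by
    refine mul_left_cancel₀ hT ?_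
    have h5 := Finset.sum_congr rfl h3
    rw [Finset.sum_const, card_els, nsmul_eq_mul, Finset.sum_comm] at h5
    calc (∑ y ∈ els B, f y * θ y⁻¹) * ∑ x ∈ els K, θ x
        = θ 1 * ∑ y ∈ els B, ∑ x ∈ els K, f y * θ (y⁻¹ * x) := by
          rw [Finset.sum_mul, Finset.mul_sum]
          refine Finset.sum_congr rfl fun y hy => ?_
          rw [← Finset.mul_sum, mul_left_comm, h1 y⁻¹ (B.inv_mem (mem_els.mp hy)), mul_assoc]
      _ = _ := by rw [h5]; ring
  have h6 : ∀ y ∈ B, ∑ x ∈ els K, θ (y * x) = Nat.card K * θ y := fun y hy =>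
    mul_left_cancel₀ hθ0 (by rw [h1 y hy, h4]; ring)
  intro y hy x hx
  refine mul_left_cancel₀ (card_ne K) ?_
  rw [← h6 y hy, ← h6 _ (B.mul_mem hy (hKB hx)), ← sum_els_left K hx (fun z => θ (y * z))]
  exact Finset.sum_congr rfl fun z _ => by rw [mul_assoc]

theorem Cl.exists_con (hf : Cl B f) (hB : B' ≤ B) (h : ip B' f g ≠ 0) :
    ∃ θ, Ir B θ ∧ ip B f θ ≠ 0 ∧ ip B' θ g ≠ 0 := by
  obtain ⟨I⟩ := exists_bas B
  rw [I.ip_full hf hB] at h
  obtain ⟨i, -, hi⟩ := Finset.exists_ne_zero_of_sum_ne_zero h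
  exact ⟨I.χ i, I.ir i, left_ne_zero_of_mul hi, right_ne_zero_of_mul hi⟩

theorem Cl.exists_ir (hf : Cl B f) (h : f 1 ≠ 0) : ∃ θ, Ir B θ ∧ ip B f θ ≠ 0 := by
  obtain ⟨I⟩ := exists_bas B
  rw [I.full f hf 1 B.one_mem] at h
  obtain ⟨i, -, hi⟩ := Finset.exists_ne_zero_of_sum_ne_zero h
  exact ⟨I.χ i, I.ir i, left_ne_zero_of_mul hi⟩

/-- the multiplicity of `θ` times the value for `θ` is at most the value for `f` -/
theorem Ch.con_le (hf : Ch B f) (hθ : Ir B θ) (hB : B' ≤ B) (hg : Ch B' g) {m a c : ℕ}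
    (hm : ip B f θ = m) (ha : ip B' θ g = a) (hc : ip B' f g = c) : m * a ≤ c := by
  obtain ⟨I⟩ := exists_bas B
  obtain ⟨i, hi⟩ := hθ.exists_eq I
  choose u hu using fun j => hf.ip_nat (I.ir j).1
  choose v hv using fun j => ((I.ir j).1.mono hB).ip_nat hg
  have h1 : c = ∑ j, u j * v j := by
    have : (c : ℂ) = ((∑ j, u j * v j : ℕ) : ℂ) := by
      rw [← hc, I.ip_full hf.cl hB]
      push_cast
      exact Finset.sum_congr rfl fun j _ => by rw [hu j, hv j]
    exact_mod_cast this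
  have h2 : m = u i := by
    have : (m : ℂ) = u i := by rw [← hm, ← hu i]; exact ip_congr (fun _ _ => rfl) hi
    exact_mod_cast this
  have h3 : a = v i := by
    have : (a : ℂ) = v i := by
      rw [← ha, ← hv i]; exact ip_congr (fun x hx => hi x (hB hx)) (fun _ _ => rfl)
    exact_mod_cast this
  rw [h1, h2, h3]
  exact Finset.single_le_sum (f := fun j => u j * v j) (fun _ _ => Nat.zero_le _)
    (Finset.mem_univ i)

/-- different irreducible constituents of the same degree -/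
theorem Ch.sum_le (hf : Ch B f) {ι : Type} (s : Finset ι) (ψ : ι → G → ℂ)
    (hψ : ∀ i ∈ s, Ir B (ψ i)) (hne : ∀ i ∈ s, ∀ j ∈ s, (∀ x ∈ B, ψ i x = ψ j x) → i = j)
    {m e n : ℕ} (hm : ∀ i ∈ s, ip B f (ψ i) = m) (he : ∀ i ∈ s, ψ i 1 = e) (hn : f 1 = n) :
    s.card * m * e ≤ n := by
  obtain ⟨I⟩ := exists_bas B
  choose k hk using fun i : s => (hψ i i.2).exists_eq I
  choose u hu using fun j => hf.ip_nat (I.ir j).1
  choose v hv using fun j => (I.ir j).1.deg
  have h1 : n = ∑ j, u j * v j := by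
    have : (n : ℂ) = ((∑ j, u j * v j : ℕ) : ℂ) := by
      rw [← hn, I.full f hf.cl 1 B.one_mem]
      push_cast
      exact Finset.sum_congr rfl fun j _ => by rw [hu j, hv j]
    exact_mod_cast this
  have h2 : ∀ i : s, u (k i) * v (k i) = m * e := by
    intro i
    have e1 : (u (k i) : ℂ) = m := by
      rw [← hm i i.2, ← hu]; exact (ip_congr (fun _ _ => rfl) (hk i)).symm
    have e2 : (v (k i) : ℂ) = e := by rw [← he i i.2, ← hv, hk i 1 B.one_mem]
    rw [Nat.cast_injective e1, Nat.cast_injective e2]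
  have hinj : Function.Injective k := fun i j hij =>
    Subtype.ext (hne i i.2 j j.2 fun x hx => by rw [hk i x hx, hk j x hx, hij])
  calc s.card * m * e = ∑ i : s, u (k i) * v (k i) := by
        rw [Finset.sum_congr rfl (fun i _ => h2 i), Finset.sum_const, Finset.card_univ,
          Fintype.card_coe, smul_eq_mul, mul_assoc]
    _ = ∑ j ∈ univ.image k, u j * v j :=
        (Finset.sum_image (f := fun j => u j * v j) fun i _ j _ hij => hinj hij).symm
    _ ≤ n := h1 ▸ Finset.sum_le_sum_of_subset (Finset.subset_univ _)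

/-- expand the indicator function of `K` -/
theorem comm_le_of_deg {N K : Subgroup G} [K.Normal] (hK : K ≤ N)
    (h : ∀ θ, Ir N θ → KInv N K θ → θ 1 = 1) : ⁅N, N⁆ ≤ K := by
  classical
  have hn : K.Normal := inferInstance
  obtain ⟨I⟩ := exists_bas N
  let f : G → ℂ := fun x => if x ∈ K then 1 else 0
  have hcl : Cl N f := fun g _ x _ => by
    have : g * x * g⁻¹ ∈ K ↔ x ∈ K := by
      refine ⟨fun h1 => ?_, fun h1 => hn.conj_mem x h1 g⟩
      have h2 := hn.conj_mem _ h1 g⁻¹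
      simpa [mul_assoc] using h2
    simp only [f, this]
  have hinv : KInv N K f := fun y _ x hx => by
    simp only [f, K.mul_mem_cancel_right hx]
  rw [Subgroup.commutator_le]
  intro a ha b hb
  have hab : ⁅a, b⁆ ∈ N := by
    rw [commutatorElement_def]
    exact N.mul_mem (N.mul_mem (N.mul_mem ha hb) (N.inv_mem ha)) (N.inv_mem hb)
  have h1 : f ⁅a, b⁆ = f 1 := by
    rw [I.full f hcl _ hab, I.full f hcl 1 N.one_mem]
    refine Finset.sum_congr rfl fun i _ => ?_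
    by_cases h0 : ip N f (I.χ i) = 0
    · rw [h0, zero_mul, zero_mul]
    have hl := (I.ir i).lin_of_deg (h _ (I.ir i) ((I.ir i).kinv hK hinv h0))
    refine congrArg _ ?_
    rw [commutatorElement_def, hl.2 _ (N.mul_mem (N.mul_mem ha hb) (N.inv_mem ha)) _
      (N.inv_mem hb), hl.2 _ (N.mul_mem ha hb) _ (N.inv_mem ha), hl.2 a ha b hb, hl.1]
    have e1 := hl.inv_mul ha
    have e2 := hl.inv_mul hb
    linear_combination (I.χ i b⁻¹ * I.χ i b) * e1 + e2
  by_contra hc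
  simp only [f, if_neg hc, if_pos K.one_mem] at h1
  exact zero_ne_one h1

end Pool.Agent.Lib.MP_d87a8f_pr.E
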