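import Mathlib
import Pool.Agent.Lib.MP_d87a8f_pr.E.Cst

/-!
Induced class functions, Frobenius reciprocity and the Clifford facts.
-/

namespace Pool.Agent.Lib.MP_d87a8f_pr.E

open Finset

variable {G : Type} [Group G] [Fintype G] {N J B K : Subgroup G} {χ θ ψ ψ' : G → ℂ}

open Classical in
/-- the induced class function -/
noncomputable def ind (N J : Subgroup G) (θ : G → ℂ) : G → ℂ := fun x =>
  (Nat.card J : ℂ)⁻¹ * ∑ y ∈ els N, if y * x * y⁻¹ ∈ J then θ (y * x * y⁻¹) else 0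

theorem frob_sum_mul {g : G} (hg : g ∈ N) (F : G → ℂ) :
    ∑ y ∈ els N, F (y * g) = ∑ y ∈ els N, F y :=
  Finset.sum_equiv (Equiv.mulRight g)
    (fun y => by simp only [mem_els, Equiv.coe_mulRight, N.mul_mem_cancel_right hg])
    (fun _ _ => rfl)

theorem frob_sum_conj {g : G} (hg : g ∈ N) (F : G → ℂ) :
    ∑ y ∈ els N, F (g * y * g⁻¹) = ∑ y ∈ els N, F y :=
  Finset.sum_equiv (MulAut.conj g).toEquiv
    (fun y => by
      simp only [mem_els, MulEquiv.toEquiv_eq_coe, EquivLike.coe_coe, MulAut.conj_apply,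
        N.mul_mem_cancel_right (N.inv_mem hg), N.mul_mem_cancel_left hg])
    (fun _ _ => rfl)

theorem frob_card_ne (N : Subgroup G) : (Nat.card N : ℂ) ≠ 0 :=
  Nat.cast_ne_zero.2 Nat.card_pos.ne'

omit [Fintype G] in
theorem frob_card (hJ : J ≤ N) : Nat.card J * J.relIndex N = Nat.card N := by
  rw [← Nat.card_congr (Subgroup.subgroupOfEquivOfLe hJ).toEquiv]
  exact (J.subgroupOf N).card_mul_index

theorem ind_cl (N J : Subgroup G) (θ : G → ℂ) : Cl N (ind N J θ) := by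
  classical
  intro g hg x _
  unfold ind
  congr 1
  rw [← frob_sum_mul hg fun y => if y * x * y⁻¹ ∈ J then θ (y * x * y⁻¹) else 0]
  refine Finset.sum_congr rfl fun y _ => ?_
  have e : y * (g * x * g⁻¹) * y⁻¹ = y * g * x * (y * g)⁻¹ := by group
  rw [e]

theorem ind_one (hJ : J ≤ N) (θ : G → ℂ) : ind N J θ 1 = (J.relIndex N : ℂ) * θ 1 := by
  unfold ind
  simp only [mul_one, mul_inv_cancel, J.one_mem, if_true, Finset.sum_const, card_els,
    nsmul_eq_mul]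
  rw [← frob_card hJ, Nat.cast_mul, mul_assoc, inv_mul_cancel_left₀ (frob_card_ne J)]

theorem ip_ind (hJ : J ≤ N) (θ : G → ℂ) (hχ : Cl N χ) : ip N (ind N J θ) χ = ip J θ χ := by
  classical
  have h1 : ∀ y ∈ els N,
      ∑ x ∈ els N, (if y * x * y⁻¹ ∈ J then θ (y * x * y⁻¹) else 0) * χ x⁻¹ =
        ∑ x ∈ els J, θ x * χ x⁻¹ := fun y hy => by
    have hy' := mem_els.1 hy
    have h2 := frob_sum_conj hy' fun z => (if z ∈ J then θ z else 0) * χ z⁻¹
    have h3 : ∑ x ∈ els N, (if x ∈ J then θ x else 0) * χ x⁻¹ = ∑ x ∈ els J, θ x * χ x⁻¹ := by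
      symm
      refine Finset.sum_subset_zero_on_sdiff (fun x hx => mem_els.2 (hJ (mem_els.1 hx)))
        (fun x hx => ?_) fun x hx => by rw [if_pos (mem_els.1 hx)]
      rw [if_neg fun h => (Finset.mem_sdiff.1 hx).2 (mem_els.2 h), zero_mul]
    rw [← h3, ← h2]
    refine Finset.sum_congr rfl fun x hx => ?_
    have e : (y * x * y⁻¹)⁻¹ = y * x⁻¹ * y⁻¹ := by group
    rw [e, hχ y hy' x⁻¹ (N.inv_mem (mem_els.1 hx))]
  unfold ip ind
  simp only [mul_assoc _ (∑ y ∈ els N, _), Finset.sum_mul]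
  rw [← Finset.mul_sum, Finset.sum_comm]
  erw [Finset.sum_congr rfl h1]
  rw [Finset.sum_const, card_els, nsmul_eq_mul, mul_left_comm,
    inv_mul_cancel_left₀ (frob_card_ne N)]

theorem ind_kinv [K.Normal] (hK : K ≤ J) (h : KInv J K θ) : KInv N K (ind N J θ) := by
  classical
  intro y _ x hx
  unfold ind
  congr 1
  refine Finset.sum_congr rfl fun g _ => ?_
  have e : g * (y * x) * g⁻¹ = g * y * g⁻¹ * (g * x * g⁻¹) := by group
  have hk : g * x * g⁻¹ ∈ K := Subgroup.Normal.conj_mem inferInstance x hx g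
  rw [e]
  by_cases hy : g * y * g⁻¹ ∈ J
  · rw [if_pos hy, if_pos (J.mul_mem hy (hK hk)), h _ hy _ hk]
  · rw [if_neg hy, if_neg fun h' => hy ((J.mul_mem_cancel_right (hK hk)).1 h')]

theorem exists_over [K.Normal] (hJ : J ≤ N) (hK : K ≤ J) (hθ : Ir J θ) (h : KInv J K θ) :
    ∃ χ, Ir N χ ∧ KInv N K χ ∧ ip J χ θ ≠ 0 := by
  obtain ⟨n, n0, hn⟩ := hθ.deg_pos
  have h1 : ind N J θ 1 ≠ 0 := by
    rw [ind_one hJ, hn]
    exact mul_ne_zero (Nat.cast_ne_zero.2 Subgroup.index_ne_zero_of_finite)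
      (Nat.cast_ne_zero.2 n0.ne')
  obtain ⟨χ, h2, h3⟩ := (ind_cl N J θ).exists_ir h1
  refine ⟨χ, h2, h2.kinv (hK.trans hJ) (ind_kinv hK h) h3, ?_⟩
  rwa [ip_ind hJ θ h2.1.cl, ip_comm] at h3

/-- `full` for `ind N J θ` at `1`, all coefficients are natural numbers -/
theorem deg_le_index (hJ : J ≤ N) (hχ : Ir N χ) (hθ : Ir J θ) (h : ip J χ θ ≠ 0) {a c : ℕ}
    (ha : χ 1 = a) (hc : θ 1 = c) : a ≤ J.relIndex N * c := by
  obtain ⟨I⟩ := exists_bas N
  obtain ⟨i, hi⟩ := hχ.exists_eq I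
  choose m hm using fun j => hθ.1.ip_nat ((I.ir j).1.mono hJ)
  choose d hd using fun j => (I.ir j).1.deg
  have h1 := I.full _ (ind_cl N J θ) 1 N.one_mem
  rw [ind_one hJ, hc] at h1
  simp only [fun j => ip_ind hJ θ (I.ir j).1.cl, hm, hd] at h1
  have h2 : J.relIndex N * c = ∑ j, m j * d j := by exact_mod_cast h1
  have h3 : a = d i := by
    have := hi 1 N.one_mem
    rw [ha, hd] at this
    exact_mod_cast this
  have h4 : m i ≠ 0 := fun h0 => h (by
    rw [ip_comm, ip_congr (fun _ _ => rfl) fun x hx => hi x (hJ hx), hm, h0, Nat.cast_zero])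
  rw [h2, h3]
  exact (Nat.le_mul_of_pos_left _ (Nat.pos_of_ne_zero h4)).trans
    (Finset.single_le_sum (f := fun j => m j * d j) (fun _ _ => Nat.zero_le _) (mem_univ i))

/-- `ip B (ind J B ψ) ψ'` is a sum of natural numbers with a positive term, and on `B` the induced
function is a multiple of the sum of the conjugates of `ψ` -/
theorem clifford_conj [B.Normal] (hB : B ≤ J) (hθ : Ir J θ) (hψ : Ir B ψ) (hψ' : Ir B ψ')
    (h : ip B θ ψ ≠ 0) (h' : ip B θ ψ' ≠ 0) : ∃ g ∈ J, ∀ x ∈ B, ψ' x = cj g ψ x := by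
  classical
  obtain ⟨I⟩ := exists_bas J
  obtain ⟨i, hi⟩ := hθ.exists_eq I
  choose m hm using fun j => hψ.1.ip_nat ((I.ir j).1.mono hB)
  choose k hk using fun j => ((I.ir j).1.mono hB).ip_nat hψ'.1
  have h1 : ip B (ind J B ψ) ψ' = ((∑ j, m j * k j : ℕ) : ℂ) := by
    rw [ip_congr (fun x hx => I.full _ (ind_cl J B ψ) x (hB hx)) fun _ _ => rfl, ip_sum]
    simp only [fun j => ip_ind hB ψ (I.ir j).1.cl, hm, hk, Nat.cast_sum, Nat.cast_mul]
  have h2 : m i ≠ 0 := fun h0 => h (by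
    rw [ip_comm, ip_congr (fun _ _ => rfl) fun x hx => hi x (hB hx), hm, h0, Nat.cast_zero])
  have h3 : k i ≠ 0 := fun h0 => h' (by
    rw [ip_congr (fun x hx => hi x (hB hx)) fun _ _ => rfl, hk, h0, Nat.cast_zero])
  have h4 : ip B (ind J B ψ) ψ' ≠ 0 := by
    rw [h1, Nat.cast_ne_zero]
    exact fun h0 => mul_ne_zero h2 h3 (Finset.sum_eq_zero_iff.1 h0 i (mem_univ i))
  have h5 : ∀ x ∈ B, ind J B ψ x = ∑ y ∈ els J, (Nat.card B : ℂ)⁻¹ * cj y ψ x := fun x hx => by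
    unfold ind
    rw [Finset.mul_sum]
    refine Finset.sum_congr rfl fun y _ => ?_
    rw [if_pos (Subgroup.Normal.conj_mem inferInstance x hx y)]
    rfl
  rw [ip_congr h5 fun _ _ => rfl, ip_sum] at h4
  obtain ⟨y, hy, h6⟩ := Finset.exists_ne_zero_of_sum_ne_zero h4
  exact ⟨y, mem_els.1 hy, fun x hx =>
    ((hψ.conj y).eq_of_ip hψ' (right_ne_zero_of_mul h6) x hx).symm⟩

theorem clifford [B.Normal] (hB : B ≤ J) (hθ : Ir J θ) (hψ : Ir B ψ)
    (hinv : ∀ g ∈ J, ∀ x ∈ B, ψ (g * x * g⁻¹) = ψ x) (h : ip B θ ψ ≠ 0) :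
    ∀ x ∈ B, θ x = ip B θ ψ * ψ x := by
  intro x hx
  obtain ⟨I⟩ := exists_bas B
  obtain ⟨i, hi⟩ := hψ.exists_eq I
  rw [I.full _ (hθ.1.mono hB).cl x hx, Finset.sum_eq_single i, ← hi x hx,
    ip_congr (fun _ _ => rfl) hi]
  · intro j _ hj
    refine mul_eq_zero_of_left (by_contra fun h0 => ?_) _
    obtain ⟨g, hg, h1⟩ := clifford_conj hB hθ hψ (I.ir j) h h0
    have h2 := I.orth j i hj
    rw [ip_congr (f' := I.χ i) (fun y hy => by rw [h1 y hy, cj, hinv g hg y hy, hi y hy])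
      fun _ _ => rfl, (I.ir i).2] at h2
    exact one_ne_zero h2
  · exact fun h0 => absurd (mem_univ i) h0

/-- `Ch.sum_le` for the conjugates of `ψ` by the inverses of coset representatives -/
theorem orbit_le [B.Normal] (hB : B ≤ N) (hχ : Ch N χ) (hψ : Ir B ψ) {m e n : ℕ}
    (hm : ip B χ ψ = m) (he : ψ 1 = e) (hn : χ 1 = n) :
    (stab N B ψ).relIndex N * m * e ≤ n := by
  classical
  have : Fintype (N ⧸ (stab N B ψ).subgroupOf N) := Fintype.ofFinite _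
  have h := (hχ.mono hB).sum_le (univ : Finset (N ⧸ (stab N B ψ).subgroupOf N))
    (fun q => cj ((q.out : N) : G)⁻¹ ψ) (fun q _ => hψ.conj _) (fun q _ q' _ hq => ?_)
    (m := m) (e := e) (fun q _ => ?_) (fun q _ => by simpa [cj] using he) hn
  · rwa [Finset.card_univ, ← Nat.card_eq_fintype_card] at h
  · rw [← q.out_eq, ← q'.out_eq]
    refine QuotientGroup.eq.2 (Subgroup.mem_subgroupOf.2 (mem_stab.2 ⟨Subtype.property _, ?_⟩))
    intro x hx
    have h1 := hq _ (Subgroup.Normal.conj_mem inferInstance x hx ((q'.out : N) : G))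
    simp only [cj] at h1
    rw [Subgroup.coe_mul, Subgroup.coe_inv]
    refine Eq.trans ?_ (h1.trans ?_) <;> congr 1 <;> group
  · rw [← hm, ← ip_cj ((q.out : N) : G)⁻¹ χ ψ]
    exact ip_congr (fun x hx => (hχ.cl _ (N.inv_mem (q.out : N).2) x (hB hx)).symm) fun _ _ => rfl

theorem deg_le_of_comm {A : Subgroup G} [A.Normal] (hA : ⁅A, A⁆ ≤ K) (hχ : Ir ⊤ χ)
    (hK : KInv ⊤ K χ) {a : ℕ} (ha : χ 1 = a) : a ≤ A.index := by
  obtain ⟨n, n0, hn⟩ := hχ.deg_pos
  obtain ⟨θ, h1, h2⟩ := (hχ.1.mono (le_top : A ≤ ⊤)).cl.exists_ir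
    (by rw [hn]; exact Nat.cast_ne_zero.2 n0.ne')
  have h3 : KInv A ⁅A, A⁆ θ := h1.kinv (Subgroup.commutator_le_left A A)
    (fun y _ x hx => hK y (Subgroup.mem_top y) x (hA hx)) h2
  have h4 := deg_le_index le_top hχ h1 h2 ha (c := 1)
    (by rw [(h1.lin_of_comm le_rfl h3).1, Nat.cast_one])
  rwa [mul_one, Subgroup.relIndex_top_right] at h4

end Pool.Agent.Lib.MP_d87a8f_pr.E
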