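import Mathlib
import Pool.Agent.Lib.MP_d87a8f_pr.E.Frob

/-!
The inequality between the largest degree of a group and the degrees of a normal subgroup.
-/

namespace Pool.Agent.Lib.MP_d87a8f_pr.E

open Finset

variable {G : Type} [Group G] [Fintype G]

theorem deg_ineq {N B K : Subgroup G} [B.Normal] [K.Normal] (hBN : B ≤ N) (hKB : K ≤ B) {b e : ℕ}
    (hb : ∀ θ, Ir N θ → KInv N K θ → ∀ a : ℕ, θ 1 = a → a ≤ b)
    {π l ψ : G → ℂ} (hπ : Ir N π) (hπK : KInv N K π) (hπb : π 1 = b)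
    (hl : Lin B l) (hπl : ip B π l ≠ 0) (hψ : Ir B ψ) (hψK : KInv B K ψ) (hψe : ψ 1 = e) :
    e ^ 2 ≤ b * (stab N B l).relIndex (stab N B ψ ⊓ stab N B (fun x => ψ x * l x)) := by
  set I1 := stab N B ψ with hI1
  set I2 := stab N B (fun x => ψ x * l x) with hI2
  set T := stab N B l with hT
  have hBJ : B ≤ I1 ⊓ T := fun g hg =>
    ⟨⟨hBN hg, fun x hx => hψ.1.cl g hg x hx⟩, ⟨hBN hg, fun x hx => hl.ir.1.cl g hg x hx⟩⟩
  have hJN : I1 ⊓ T ≤ N := fun g hg => hg.1.1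
  have hKJ : K ≤ I1 ⊓ T := hKB.trans hBJ
  have hJ2 : ∀ g ∈ I1 ⊓ T, ∀ x ∈ B,
      ψ (g * x * g⁻¹) * l (g * x * g⁻¹) = ψ x * l x := fun g hg x hx => by
    rw [hg.1.2 x hx, hg.2.2 x hx]
  have hψl : Ir B (fun x => ψ x * l x) := hψ.mul_lin hl
  obtain ⟨θ0, h0, h0π, h0l⟩ := ((hπ.1.mono hJN).cl).exists_con hBJ hπl
  have c0 := clifford hBJ h0 hl.ir (fun g hg => hg.2.2) h0l
  obtain ⟨a0, ha0pos, ha0⟩ := h0.deg_pos
  have e0 : ip B θ0 l = a0 := by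
    have := c0 1 B.one_mem
    rw [hl.1, mul_one, ha0] at this
    exact this.symm
  have hb0 : b ≤ (I1 ⊓ T).relIndex N * a0 := deg_le_index hJN hπ h0 h0π hπb ha0
  have h0K : KInv (I1 ⊓ T) K θ0 := h0.kinv hKJ (fun y hy x hx => hπK y (hJN hy) x hx) h0π
  obtain ⟨θ1, h1, h1K, h1ψ⟩ := exists_over hBJ hKB hψ hψK
  have c1 := clifford hBJ h1 hψ (fun g hg => hg.1.2) h1ψ
  obtain ⟨f1, hf1⟩ := (h1.1.mono hBJ).ip_nat hψ.1
  have hp : Ch (I1 ⊓ T) (fun x => θ0 x * θ1 x) := h0.1.mul h1.1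
  have hpB : ip B (fun x => θ0 x * θ1 x) (fun x => ψ x * l x) ≠ 0 := by
    have e1 : ip B (fun x => θ0 x * θ1 x) (fun x => ψ x * l x) =
        ip B (fun x => (ip B θ0 l * ip B θ1 ψ) * (ψ x * l x)) (fun x => ψ x * l x) :=
      ip_congr (fun x hx => by rw [c0 x hx, c1 x hx]; ring) (fun _ _ => rfl)
    rw [e1, ip_smul, hψl.2, mul_one]
    exact mul_ne_zero h0l h1ψ
  obtain ⟨θ2, h2, h2p, h2ψ⟩ := hp.cl.exists_con hBJ hpB
  have h2K : KInv (I1 ⊓ T) K θ2 := h2.kinv hKJ (fun y hy x hx => by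
    show θ0 (y * x) * θ1 (y * x) = θ0 y * θ1 y
    rw [h0K y hy x hx, h1K y hy x hx]) h2p
  have c2 := clifford hBJ h2 hψl hJ2 h2ψ
  obtain ⟨f2, hf2⟩ := (h2.1.mono hBJ).ip_nat hψl.1
  have hq : Ch (I1 ⊓ T) (fun x => θ1 x⁻¹ * θ2 x) := h1.1.inv.mul h2.1
  obtain ⟨m, hm⟩ := hq.ip_nat h0.1
  have hm0 : m ≠ 0 := by
    rintro rfl
    apply h2p
    have e1 : ip (I1 ⊓ T) (fun x => θ0 x * θ1 x) θ2 = ip (I1 ⊓ T) (fun x => θ1 x * θ0 x) θ2 :=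
      ip_congr (fun x _ => mul_comm _ _) (fun _ _ => rfl)
    rw [e1, ip_mul, ip_comm, hm, Nat.cast_zero]
  have hc : ip B (fun x => θ1 x⁻¹ * θ2 x) l = ((f1 * f2 : ℕ) : ℂ) := by
    have e1 : ip B (fun x => θ1 x⁻¹ * θ2 x) l =
        ip B (fun x => ((f1 : ℂ) * f2) * (ψ x⁻¹ * (ψ x * l x))) l :=
      ip_congr (fun x hx => by rw [c1 _ (B.inv_mem hx), c2 x hx, hf1, hf2]; ring) (fun _ _ => rfl)
    have e2 : ip B (fun x => ψ x⁻¹ * (ψ x * l x)) l = 1 := by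
      rw [ip_mul B (fun x => ψ x⁻¹) (fun x => ψ x * l x) l]
      simpa only [inv_inv] using hψl.2
    rw [e1, ip_smul, e2, mul_one, Nat.cast_mul]
  have hle0 : m * a0 ≤ f1 * f2 := hq.con_le h0 hBJ hl.ir.1 hm e0 hc
  have ov : ∀ (θ φ : G → ℂ) (f : ℕ), Ir (I1 ⊓ T) θ → KInv (I1 ⊓ T) K θ → Ir B φ → φ 1 = e →
      ip B θ φ = f → (stab N B φ).relIndex N * f * e ≤ b := by
    intro θ φ f hθ hθK hφ hφe hf
    obtain ⟨χ, hχ, hχK, hχθ⟩ := exists_over hJN hKJ hθ hθK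
    obtain ⟨n, hn⟩ := hχ.1.deg
    obtain ⟨m1, hm1⟩ := (hχ.1.mono hJN).ip_nat hθ.1
    obtain ⟨c, hc'⟩ := (hχ.1.mono hBN).ip_nat hφ.1
    have hm10 : m1 ≠ 0 := by
      rintro rfl
      exact hχθ (by rw [hm1, Nat.cast_zero])
    have q1 : m1 * f ≤ c := (hχ.1.mono hJN).con_le hθ hBJ hφ.1 hm1 hf hc'
    have q2 : f ≤ c := le_trans (Nat.le_mul_of_pos_left f (Nat.pos_of_ne_zero hm10)) q1
    exact le_trans (Nat.mul_le_mul_right _ (Nat.mul_le_mul_left _ q2))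
      ((orbit_le hBN hχ.1 hφ hc' hφe hn).trans (hb χ hχ hχK n hn))
  have o1 := ov θ1 ψ f1 h1 h1K hψ hψe hf1
  have o2 := ov θ2 (fun x => ψ x * l x) f2 h2 h2K hψl (by
    show ψ 1 * l 1 = e
    rw [hl.1, mul_one, hψe]) hf2
  have hIN : I1 ⊓ I2 ≤ N := fun g hg => hg.1.1
  have hJI : I1 ⊓ T ≤ I1 ⊓ I2 := fun g hg => ⟨hg.1, hg.1.1, hJ2 g hg⟩
  have i1 : (I1 ⊓ T).relIndex N = T.relIndex (I1 ⊓ I2) * (I1 ⊓ I2).relIndex N := by
    rw [← Subgroup.relIndex_mul_relIndex (I1 ⊓ T) (I1 ⊓ I2) N hJI hIN]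
    congr 1
    rw [← Subgroup.inf_relIndex_right T (I1 ⊓ I2)]
    congr 1
    exact le_antisymm (fun g hg => ⟨hg.2, hJI hg⟩) (fun g hg => ⟨hg.2.1, hg.1⟩)
  have i2 : (I1 ⊓ I2).relIndex N ≤ I1.relIndex N * I2.relIndex N := Subgroup.relIndex_inf_le
  obtain ⟨b', hb'0, hb'⟩ := hπ.deg_pos
  have hbpos : 0 < b := by
    have : (b : ℂ) = b' := hπb.symm.trans hb'
    have : b = b' := by exact_mod_cast this
    omega
  have ha0f : a0 ≤ f1 * f2 := le_trans (Nat.le_mul_of_pos_left a0 (Nat.pos_of_ne_zero hm0)) hle0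
  refine Nat.le_of_mul_le_mul_left (c := b) ?_ hbpos
  generalize T.relIndex (I1 ⊓ I2) = r at *
  calc b * e ^ 2 ≤ (r * (I1 ⊓ I2).relIndex N * a0) * e ^ 2 :=
        Nat.mul_le_mul_right _ (by rw [← i1]; exact hb0)
    _ ≤ (r * (I1.relIndex N * I2.relIndex N) * (f1 * f2)) * e ^ 2 :=
        Nat.mul_le_mul_right _ (Nat.mul_le_mul (Nat.mul_le_mul_left _ i2) ha0f)
    _ = r * ((I1.relIndex N * f1 * e) * (I2.relIndex N * f2 * e)) := by ring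
    _ ≤ r * (b * b) := Nat.mul_le_mul_left _ (Nat.mul_le_mul o1 o2)
    _ = b * (b * r) := by ring

end Pool.Agent.Lib.MP_d87a8f_pr.E
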