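import Mathlib
import Pool.Agent.Lib.MP_d87a8f_pr.E.Cst

/-!
Linear characters which fix an irreducible character, and a product of two subgroups.
-/

namespace Pool.Agent.Lib.MP_d87a8f_pr.E

open Finset

variable {G : Type} [Group G] [Fintype G]

/-- the homomorphisms `μ : B →* ℂˣ` which are trivial on `A` and satisfy `ψ μ = ψ` form a group `L`
with at most `e ^ 2` elements (`Ch.sum_le` for `ψ x⁻¹ * ψ x`); `B'` is the common kernel, and
`B / B'` embeds in `L →* ℂˣ` -/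
theorem exists_small {A B : Subgroup G} (hA : A ≤ B) {ψ : G → ℂ} (hψ : Ir B ψ) {e : ℕ}
    (he : ψ 1 = e) : ∃ B' : Subgroup G, A ≤ B' ∧ B' ≤ B ∧ B'.relIndex B ≤ e ^ 2 ∧
      ∀ μ : G → ℂ, Lin B μ → (∀ x ∈ A, μ x = 1) → (∀ x ∈ B, ψ x * μ x = ψ x) →
        ∀ x ∈ B', μ x = 1 := by
  classical
  let L : Subgroup (B →* ℂˣ) :=
    { carrier := {μ | (∀ x : B, x.1 ∈ A → μ x = 1) ∧ ∀ x : B, ψ x * μ x = ψ x}
      one_mem' := ⟨fun _ _ => rfl, fun _ => by simp⟩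
      mul_mem' := fun {a b} ha hb => ⟨fun x hx => by simp [ha.1 x hx, hb.1 x hx], fun x => by
        rw [MonoidHom.mul_apply, Units.val_mul, ← mul_assoc, ha.2, hb.2]⟩
      inv_mem' := fun {a} ha => ⟨fun x hx => by simp [ha.1 x hx], fun x => by
        rw [MonoidHom.inv_apply, Units.mul_inv_eq_iff_eq_mul, ha.2]⟩ }
  let φ : B →* L →* ℂˣ := L.subtype.flip
  let ex : L → G → ℂ := fun μ x => if h : x ∈ B then μ.1 ⟨x, h⟩ else 0
  have ev : ∀ μ (x : B), ex μ x = μ.1 x := fun μ x => dif_pos x.2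
  have lin : ∀ μ, Lin B (ex μ) := fun μ => ⟨(ev μ 1).trans (by simp), fun x hx y hy =>
    (ev μ (⟨x, hx⟩ * ⟨y, hy⟩)).trans (by rw [map_mul, Units.val_mul, ← ev, ← ev])⟩
  have := Fintype.ofFinite L
  have hL := (hψ.1.inv.mul hψ.1).sum_le univ ex (fun μ _ => (lin μ).ir)
    (fun μ _ ν _ h => Subtype.ext (MonoidHom.ext fun x => Units.ext
      ((ev μ x).symm.trans ((h x x.2).trans (ev ν x))))) (m := 1) (e := 1) (n := e ^ 2)
    (fun μ _ => by
      rw [ip_mul, Nat.cast_one, ← hψ.2]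
      refine ip_congr (fun _ _ => rfl) fun x hx => ?_
      rw [inv_inv]
      exact (congrArg _ (ev μ ⟨x, hx⟩)).trans (μ.2.2 ⟨x, hx⟩))
    (fun μ _ => (lin μ).1.trans Nat.cast_one.symm) (by simp [he, sq])
  refine ⟨φ.ker.map B.subtype, fun x hx => ⟨⟨x, hA hx⟩, MonoidHom.ext fun μ => μ.2.1 _ hx, rfl⟩,
    Subgroup.map_subtype_le _, ?_, ?_⟩
  · rw [Subgroup.relIndex, Subgroup.subgroupOf,
      Subgroup.comap_map_eq_self_of_injective B.subtype_injective, Subgroup.index_ker]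
    refine (Nat.card_le_card_of_injective _ φ.range.subtype_injective).trans ?_
    rw [CommGroup.card_monoidHom_of_hasEnoughRootsOfUnity, Nat.card_eq_fintype_card]
    simpa using hL
  · rintro μ hμ h1 h2 _ ⟨x, hx, rfl⟩
    let μ0 : B →* ℂ := ⟨⟨fun x => μ x, hμ.1⟩, fun x y => hμ.2 x x.2 y y.2⟩
    exact congrArg Units.val (DFunLike.congr_fun (MonoidHom.mem_ker.1 hx)
      ⟨μ0.toHomUnits, fun x hx => Units.ext (h1 x hx), fun x => h2 x x.2⟩)

/-- `(t, q) ↦ t * q.out⁻¹` is injective -/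
theorem card_mul_le (T I : Subgroup G) (S : Finset G) (h : ∀ t ∈ T, ∀ g ∈ I, t * g ∈ S) :
    Nat.card T * T.relIndex I ≤ S.card := by
  rw [Subgroup.relIndex, Subgroup.index, ← Nat.card_prod, ← Nat.card_eq_finsetCard]
  refine Nat.card_le_card_of_injective
    (fun p => ⟨p.1.1 * (p.2.out⁻¹ : I), h _ p.1.2 _ (p.2.out⁻¹ : I).2⟩) ?_
  rintro ⟨t, q⟩ ⟨t', q'⟩ e
  have e1 : t.1 * (q.out.1)⁻¹ = t'.1 * (q'.out.1)⁻¹ := congrArg Subtype.val e
  have e2 : q = q' := by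
    rw [← q.out_eq', ← q'.out_eq', QuotientGroup.eq, Subgroup.mem_subgroupOf]
    have : (q.out.1)⁻¹ * q'.out.1 = t.1⁻¹ * t'.1 := by
      rw [eq_inv_mul_iff_mul_eq, ← mul_assoc, e1, inv_mul_cancel_right]
    exact (congrArg (· ∈ T) this).mpr (t⁻¹ * t').2
  subst e2
  rw [Subtype.ext (mul_right_cancel e1)]

end Pool.Agent.Lib.MP_d87a8f_pr.E
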