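import Mathlib

/-!
Submodularity of the entropy of partitions, and a normal minimiser.
-/

namespace Pool.Agent.Lib.MP_d87a8f_pr.E

open Finset

open Classical in
/-- the size of the class of `x` -/
noncomputable def cls {X : Type} [Fintype X] (r : Setoid X) (x : X) : ℕ :=
  (univ.filter fun y => r x y).card

theorem cls_pos {X : Type} [Fintype X] (r : Setoid X) (x : X) : 0 < cls r x := by
  classical
  exact card_pos.2 ⟨x, mem_filter.2 ⟨mem_univ _, r.refl x⟩⟩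

theorem cls_eq {X : Type} [Fintype X] {r : Setoid X} {x y : X} (h : r x y) :
    cls r x = cls r y := by
  classical
  exact congrArg card (filter_congr fun z _ => ⟨r.trans (r.symm h), r.trans h⟩)

theorem sub_sum {X : Type} [Fintype X] (r1 r2 rm rj : Setoid X)
    (hm : ∀ x y, r1 x y → r2 x y → rm x y) (h1 : ∀ x y, r1 x y → rj x y)
    (h2 : ∀ x y, r2 x y → rj x y) :
    ∑ x, (cls r1 x * cls r2 x : ℝ) / (cls rm x * cls rj x) ≤ ∑ _x : X, (1 : ℝ) := by
  classical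
  have p : ∀ (r : Setoid X) x, (0 : ℝ) < cls r x := fun r x => Nat.cast_pos.2 (cls_pos r x)
  have c : ∀ (r : Setoid X) x, (cls r x : ℝ) = ∑ y, if r x y then 1 else 0 := fun r x => by
    rw [sum_boole]; rfl
  have e : ∀ x, (cls r1 x * cls r2 x : ℝ) / (cls rm x * cls rj x) =
      ∑ y, ∑ z, if r1 x y ∧ r2 x z then (cls rm x : ℝ)⁻¹ * (cls rj y : ℝ)⁻¹ else 0 := fun x => by
    rw [c r1, c r2, sum_mul_sum, sum_div]
    refine sum_congr rfl fun y _ => ?_
    rw [sum_div]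
    refine sum_congr rfl fun z _ => ?_
    by_cases k : r1 x y
    · by_cases k' : r2 x z <;> simp [k, k', cls_eq (h1 _ _ k), mul_comm]
    · simp [k]
  simp only [e]
  rw [sum_comm]
  refine sum_le_sum fun y _ => ?_
  rw [sum_comm, ← mul_inv_cancel₀ (p rj y).ne', c rj, sum_mul, ← c rj]
  refine sum_le_sum fun z _ => ?_
  rw [← sum_filter, ← sum_mul]
  refine mul_le_mul_of_nonneg_right ?_ (inv_nonneg.2 (p rj y).le)
  set S := univ.filter fun x => r1 x y ∧ r2 x z with hS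
  rcases S.eq_empty_or_nonempty with h | ⟨x, hx⟩
  · rw [h, sum_empty]; split_ifs <;> norm_num
  have k := (mem_filter.1 hx).2
  have hp : (0 : ℝ) < S.card := Nat.cast_pos.2 (card_pos.2 ⟨x, hx⟩)
  rw [if_pos (rj.trans (rj.symm (h1 _ _ k.1)) (h2 _ _ k.2)), ← mul_inv_cancel₀ hp.ne',
    ← nsmul_eq_mul]
  refine sum_le_card_nsmul _ _ _ fun a ha => inv_anti₀ hp (Nat.cast_le.2 (card_le_card
    fun b hb => mem_filter.2 ⟨mem_univ _, ?_⟩))
  have ka := (mem_filter.1 ha).2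
  have kb := (mem_filter.1 hb).2
  exact hm _ _ (r1.trans ka.1 (r1.symm kb.1)) (r2.trans ka.2 (r2.symm kb.2))

/-- `log u ≤ u - 1` and `∑ x, n1 x * n2 x / (nm x * nj x) ≤ |X|`: write `n1 x * n2 x` as the number
of pairs `(y, z)` with `r1 x y`, `r2 x z`; for fixed `(y, z)` the points `x` lie in one class of
`rm`, and `rj y z` holds -/
theorem submod {X : Type} [Fintype X] (r1 r2 rm rj : Setoid X)
    (hm : ∀ x y, r1 x y → r2 x y → rm x y) (h1 : ∀ x y, r1 x y → rj x y)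
    (h2 : ∀ x y, r2 x y → rj x y) :
    ∑ x, Real.log (cls r1 x) + ∑ x, Real.log (cls r2 x) ≤
      ∑ x, Real.log (cls rm x) + ∑ x, Real.log (cls rj x) := by
  have p : ∀ (r : Setoid X) x, (0 : ℝ) < cls r x := fun r x => Nat.cast_pos.2 (cls_pos r x)
  have h := sub_sum r1 r2 rm rj hm h1 h2
  rw [← sub_nonpos, ← sum_sub_distrib] at h
  rw [← sub_nonpos, ← sum_add_distrib, ← sum_add_distrib, ← sum_sub_distrib]
  refine (sum_le_sum fun x _ => ?_).trans h
  rw [← Real.log_mul (p _ _).ne' (p _ _).ne', ← Real.log_mul (p _ _).ne' (p _ _).ne',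
    ← Real.log_div (mul_pos (p _ _) (p _ _)).ne' (mul_pos (p _ _) (p _ _)).ne']
  exact Real.log_le_sub_one_of_pos (div_pos (mul_pos (p _ _) (p _ _)) (mul_pos (p _ _) (p _ _)))

variable {G : Type} [Group G] [Fintype G]

/-- same coset of `N` and the same conjugate of `l` on `B` -/
def rel (N B : Subgroup G) (l : G → ℂ) : Setoid G where
  r x y := x⁻¹ * y ∈ N ∧ ∀ a ∈ B, l (x * a * x⁻¹) = l (y * a * y⁻¹)
  iseqv := ⟨fun x => ⟨by simp, fun _ _ => rfl⟩,
    fun h => ⟨by simpa using N.inv_mem h.1, fun a ha => (h.2 a ha).symm⟩,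
    fun h h' => ⟨by simpa [mul_assoc] using N.mul_mem h.1 h'.1,
      fun a ha => (h.2 a ha).trans (h'.2 a ha)⟩⟩

/-- the function which is minimised -/
noncomputable def pot (N A : Subgroup G) (l : G → ℂ) (B : Subgroup G) : ℝ :=
  (Fintype.card G : ℝ) * Real.log (B.relIndex A) - 4 * ∑ x, Real.log (cls (rel N B l) x)

theorem pot_submod (N : Subgroup G) {A : Subgroup G} [A.Normal] {l : G → ℂ} (h1 : l 1 = 1)
    (hl : ∀ x ∈ A, ∀ y ∈ A, l (x * y) = l x * l y) {B C : Subgroup G} (hB : B ≤ A) (hC : C ≤ A) :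
    pot N A l (B ⊓ C) + pot N A l (B ⊔ C) ≤ pot N A l B + pot N A l C := by
  have nz : ∀ H K : Subgroup G, H.relIndex K ≠ 0 := fun H K => Subgroup.index_ne_zero_of_finite
  have p : ∀ H K : Subgroup G, (H.relIndex K : ℝ) ≠ 0 := fun H K => Nat.cast_ne_zero.2 (nz H K)
  have i : (B ⊓ C).relIndex A * (B ⊔ C).relIndex A ≤ B.relIndex A * C.relIndex A := by
    rw [← Subgroup.relIndex_mul_relIndex (B ⊓ C) B A inf_le_left hB, Subgroup.inf_relIndex_left,
      ← Subgroup.relIndex_mul_relIndex C (B ⊔ C) A le_sup_right (sup_le hB hC),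
      mul_comm (C.relIndex B), mul_assoc]
    exact Nat.mul_le_mul_left _ (Nat.mul_le_mul_right _
      (Subgroup.relIndex_le_of_le_right le_sup_left (nz _ _)))
  have j : Real.log ((B ⊓ C).relIndex A) + Real.log ((B ⊔ C).relIndex A) ≤
      Real.log (B.relIndex A) + Real.log (C.relIndex A) := by
    rw [← Real.log_mul (p _ _) (p _ _), ← Real.log_mul (p _ _) (p _ _)]
    exact Real.log_le_log (by exact_mod_cast Nat.pos_of_ne_zero (mul_ne_zero (nz _ _) (nz _ _)))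
      (by exact_mod_cast i)
  have k := submod (rel N B l) (rel N C l) (rel N (B ⊔ C) l) (rel N (B ⊓ C) l)
    (fun x y h h' => ⟨h.1, ?_⟩) (fun x y h => ⟨h.1, fun a ha => h.2 a ha.1⟩)
    fun x y h => ⟨h.1, fun a ha => h.2 a ha.2⟩
  · have := mul_le_mul_of_nonneg_left j (Nat.cast_nonneg (Fintype.card G))
    simp only [pot]
    linarith
  have m : ∀ x, ∀ a ∈ A, ∀ b ∈ A, l (x * (a * b) * x⁻¹) = l (x * a * x⁻¹) * l (x * b * x⁻¹) :=
    fun x a ha b hb => by
      rw [← hl _ (‹A.Normal›.conj_mem a ha x) _ (‹A.Normal›.conj_mem b hb x)]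
      congr 1; group
  have v : ∀ x, ∀ a ∈ A, l (x * a⁻¹ * x⁻¹) = (l (x * a * x⁻¹))⁻¹ := fun x a ha =>
    eq_inv_of_mul_eq_one_left (by rw [← m x _ (A.inv_mem ha) a ha]; simpa using h1)
  let D : Subgroup G :=
    { carrier := {a | a ∈ A ∧ l (x * a * x⁻¹) = l (y * a * y⁻¹)}
      one_mem' := ⟨A.one_mem, by simp⟩
      mul_mem' := fun ha hb => ⟨A.mul_mem ha.1 hb.1, by
        rw [m x _ ha.1 _ hb.1, m y _ ha.1 _ hb.1, ha.2, hb.2]⟩
      inv_mem' := fun ha => ⟨A.inv_mem ha.1, by rw [v x _ ha.1, v y _ ha.1, ha.2]⟩ }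
  exact fun a ha => ((sup_le (fun b hb => ⟨hB hb, h.2 b hb⟩) fun b hb => ⟨hC hb, h'.2 b hb⟩ :
    B ⊔ C ≤ D) ha).2

theorem pot_conj (N A : Subgroup G) [N.Normal] [A.Normal] (l : G → ℂ) (B : Subgroup G) (y : G) :
    pot N A l (B.map (MulAut.conj y).toMonoidHom) = pot N A l B := by
  classical
  have e : (B.map (MulAut.conj y).toMonoidHom).relIndex A = B.relIndex A := by
    rw [← Subgroup.relIndex_map_map_of_injective (f := (MulAut.conj y).toMonoidHom) B A
      (MulAut.conj y).injective]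
    exact congrArg _ (Subgroup.Normal.map_conj_eq A y).symm
  have c : ∀ x, cls (rel N (B.map (MulAut.conj y).toMonoidHom) l) x = cls (rel N B l) (x * y) :=
    fun x => by
      refine card_equiv (Equiv.mulRight y) fun z => ?_
      simp only [mem_filter, mem_univ, true_and, Equiv.coe_mulRight]
      refine and_congr ?_ ?_
      · rw [← mul_assoc, ‹N.Normal›.mem_comm_iff (b := y)]
        simp [mul_assoc]
      · simp [mul_assoc]
  simp only [pot, e, c]
  exact congrArg (fun t => _ - 4 * t)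
    (Equiv.sum_comp (Equiv.mulRight y) fun x => Real.log (cls (rel N B l) x))

/-- a minimiser of least order is normal -/
theorem exists_min (N A A0 : Subgroup G) [N.Normal] [A.Normal] [A0.Normal] (hA : A0 ≤ A)
    {l : G → ℂ} (h1 : l 1 = 1) (hl : ∀ x ∈ A, ∀ y ∈ A, l (x * y) = l x * l y) :
    ∃ B : Subgroup G, B.Normal ∧ A0 ≤ B ∧ B ≤ A ∧
      ∀ B' : Subgroup G, A0 ≤ B' → B' ≤ A → pot N A l B ≤ pot N A l B' := by
  obtain ⟨B0, h0⟩ := Set.exists_min_image {B : Subgroup G | A0 ≤ B ∧ B ≤ A} (pot N A l)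
    (Set.toFinite _) ⟨A, hA, le_rfl⟩
  obtain ⟨B, ⟨⟨b0, b1⟩, b2⟩, hB⟩ := exists_minimal_of_wellFoundedLT (fun B : Subgroup G =>
    (A0 ≤ B ∧ B ≤ A) ∧ ∀ B' ∈ {B : Subgroup G | A0 ≤ B ∧ B ≤ A}, pot N A l B ≤ pot N A l B')
    ⟨B0, h0⟩
  refine ⟨B, ⟨fun b hb g => ?_⟩, b0, b1, fun B' k k' => b2 B' ⟨k, k'⟩⟩
  set C := B.map (MulAut.conj g⁻¹).toMonoidHom with hC
  have c0 : A0 ≤ C := (Subgroup.Normal.map_conj_eq A0 g⁻¹).ge.trans (Subgroup.map_mono b0)
  have c1 : C ≤ A := (Subgroup.map_mono b1).trans (Subgroup.Normal.map_conj_eq A g⁻¹).le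
  have s := pot_submod N h1 hl b1 c1
  have t := b2 (B ⊔ C) ⟨b0.trans le_sup_left, sup_le b1 c1⟩
  rw [hC, pot_conj, ← hC] at s
  obtain ⟨a, ha, rfl⟩ := (hB ⟨⟨le_inf b0 c0, inf_le_left.trans b1⟩,
    fun B' k => le_trans (by linarith) (b2 B' k)⟩ inf_le_left hb).2
  simpa [mul_assoc] using ha

end Pool.Agent.Lib.MP_d87a8f_pr.E
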