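import Mathlib
import Pool.Agent.Lib.MP_d87a8f_pr.E.Deg
import Pool.Agent.Lib.MP_d87a8f_pr.E.Lam
import Pool.Agent.Lib.MP_d87a8f_pr.E.Sub

/-!
One step: a normal subgroup of small index with smaller degrees.
-/

namespace Pool.Agent.Lib.MP_d87a8f_pr.E

open Finset

variable {G : Type} [Group G] [Fintype G]

/-- the invariance group of a function -/
def kerf (χ : G → ℂ) : Subgroup G where
  carrier := {x | ∀ y, χ (y * x) = χ y}
  one_mem' := fun y => by simp
  mul_mem' := fun {a b} ha hb y => by rw [← mul_assoc, hb, ha]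
  inv_mem' := fun {a} ha y => by
    have := ha (y * a⁻¹)
    simpa using this.symm

omit [Fintype G] in
theorem kerf_normal {χ : G → ℂ} (h : Cl ⊤ χ) : (kerf χ).Normal := ⟨fun n hn g y => by
  have h1 := h g trivial (g⁻¹ * y * g * n) trivial
  have h2 := h g trivial (g⁻¹ * y * g) trivial
  have h3 : χ (g⁻¹ * y * g * n) = χ (g⁻¹ * y * g) := hn _
  have e1 : g * (g⁻¹ * y * g * n) * g⁻¹ = y * (g * n * g⁻¹) := by group
  have e2 : g * (g⁻¹ * y * g) * g⁻¹ = y := by group
  rw [e1] at h1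
  rw [e2] at h2
  rw [h1, h3, h2]⟩

omit [Fintype G] in
theorem comm_sup_le {A K : Subgroup G} [K.Normal] (h : ⁅A, A⁆ ≤ K) : ⁅A ⊔ K, A ⊔ K⁆ ≤ K := by
  have e : ∀ H : Subgroup G, H ≤ K ↔ H.map (QuotientGroup.mk' K) = ⊥ := fun H => by
    rw [Subgroup.map_eq_bot_iff, QuotientGroup.ker_mk']
  rw [e, Subgroup.map_commutator] at h ⊢
  rw [Subgroup.map_sup, QuotientGroup.map_mk'_self, sup_bot_eq]
  exact h

theorem exists_big (N K : Subgroup G) [N.Normal] [K.Normal] : ∃ A : Subgroup G, A.Normal ∧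
    N ⊓ K ≤ A ∧ A ≤ N ∧ ⁅A, A⁆ ≤ K ∧
    ∀ A' : Subgroup G, A'.Normal → ⁅A', A'⁆ ≤ K → A.relIndex N ≤ A'.index := by
  have hcomp : ∀ A' : Subgroup G, A'.Normal → ⁅A', A'⁆ ≤ K →
      (A' ⊔ K) ⊓ N ∈ {A : Subgroup G | A.Normal ∧ N ⊓ K ≤ A ∧ A ≤ N ∧ ⁅A, A⁆ ≤ K} := by
    intro A' hn hc
    exact ⟨inferInstance, le_inf (inf_le_right.trans le_sup_right) inf_le_left, inf_le_right,
      (Subgroup.commutator_mono inf_le_left inf_le_left).trans (comm_sup_le hc)⟩
  obtain ⟨A, hA, hmin⟩ := Set.exists_min_image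
    {A : Subgroup G | A.Normal ∧ N ⊓ K ≤ A ∧ A ≤ N ∧ ⁅A, A⁆ ≤ K} (fun A => A.relIndex N)
    (Set.toFinite _) ⟨_, hcomp ⊥ inferInstance (by simp)⟩
  refine ⟨A, hA.1, hA.2.1, hA.2.2.1, hA.2.2.2, fun A' hn hc => ?_⟩
  refine (hmin _ (hcomp A' hn hc)).trans ?_
  show ((A' ⊔ K) ⊓ N).relIndex N ≤ _
  rw [Subgroup.inf_relIndex_right]
  have h1 : (A' ⊔ K).relIndex N ≤ (A' ⊔ K).relIndex ⊤ :=
    Subgroup.relIndex_le_of_le_right le_top (by
      rw [Subgroup.relIndex_top_right]; exact Subgroup.index_ne_zero_of_finite)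
  rw [Subgroup.relIndex_top_right] at h1
  exact h1.trans (Nat.le_of_dvd (Nat.pos_of_ne_zero Subgroup.index_ne_zero_of_finite)
    (Subgroup.index_dvd_of_le le_sup_left))

open Classical in
theorem cls_rel (N B : Subgroup G) (l : G → ℂ) (x : G) : cls (rel N B l) x =
    (univ.filter fun h => h ∈ N ∧ ∀ a ∈ B, cj x l (h * a * h⁻¹) = cj x l a).card := by
  unfold cls
  refine card_bij (fun y _ => x⁻¹ * y) (fun y hy => ?_) (fun y _ z _ h => mul_left_cancel h)
    (fun h hh => ⟨x * h, ?_, by group⟩)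
  · rw [mem_filter] at hy ⊢
    refine ⟨mem_univ _, hy.2.1, fun a ha => ?_⟩
    have := hy.2.2 a ha
    unfold cj
    rw [this]
    congr 1
    group
  · rw [mem_filter] at hh ⊢
    refine ⟨mem_univ _, by simpa using hh.2.1, fun a ha => ?_⟩
    have := hh.2.2 a ha
    unfold cj at this
    rw [← this]
    congr 1
    group

theorem cls_le (N B : Subgroup G) (l : G → ℂ) (x : G) : cls (rel N B l) x ≤ Nat.card N := by
  classical
  rw [cls_rel, ← card_els]
  refine card_le_card fun h hh => ?_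
  rw [mem_filter] at hh
  exact mem_els.2 hh.2.1

theorem cls_stab (N B : Subgroup G) [B.Normal] (l : G → ℂ) (x : G) :
    cls (rel N B l) x = Nat.card (stab N B (cj x l)) := by
  classical
  rw [cls_rel, ← card_els]
  congr 1
  ext h
  rw [mem_filter, mem_els, mem_stab]
  simp

omit [Fintype G] in
theorem card_mul_relIndex {H N : Subgroup G} (h : H ≤ N) :
    Nat.card H * H.relIndex N = Nat.card N := by
  have := (H.subgroupOf N).card_mul_index
  rwa [Nat.card_congr (Subgroup.subgroupOfEquivOfLe h).toEquiv] at this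

theorem relIndex_pos (H N : Subgroup G) : 0 < H.relIndex N :=
  Nat.pos_of_ne_zero Subgroup.index_ne_zero_of_finite

theorem step (N : Subgroup G) [N.Normal] {χ : G → ℂ} (hχ : Ir ⊤ χ) :
    ∃ B : Subgroup G, B.Normal ∧ B ≤ N ∧ ∀ (K A : Subgroup G) (J b : ℕ), K.Normal → A.Normal →
      K ≤ N → KInv ⊤ K χ → ⁅A, A⁆ ≤ K → A.index ≤ J →
      (∀ θ, Ir N θ → KInv N K θ → ∀ a : ℕ, θ 1 = a → a ≤ b) →
      (∃ π, Ir N π ∧ π 1 = b ∧ ip N χ π ≠ 0) →
      K ≤ B ∧ B.relIndex N ≤ J * b ^ 4 ∧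
        ∀ ψ, Ir B ψ → KInv B K ψ → ∀ e : ℕ, ψ 1 = e → e ^ 3 ≤ b ^ 2 := by
  have hK0 : (kerf χ).Normal := kerf_normal hχ.1.cl
  obtain ⟨A, hAn, hA0, hAN, hAc, hAi⟩ := exists_big N (kerf χ)
  obtain ⟨c, hc0, hc⟩ := hχ.deg_pos
  have hχA : Ch A χ := hχ.1.mono le_top
  obtain ⟨l, hl, hχl⟩ := hχA.cl.exists_ir (by rw [hc]; exact_mod_cast hc0.ne')
  have hlK : KInv A (N ⊓ kerf χ) l := hl.kinv hA0 (fun y _ x hx => hx.2 y) hχl
  have hlin : Lin A l := hl.lin_of_comm
    (le_inf ((Subgroup.commutator_le_left _ _).trans hAN) hAc) hlK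
  have hl1 : ∀ x ∈ N ⊓ kerf χ, l x = 1 := fun x hx => by
    have := hlK 1 A.one_mem x hx
    rwa [one_mul, hlin.1] at this
  obtain ⟨B, hBn, hB0, hBA, hmin⟩ := exists_min N A (N ⊓ kerf χ) hA0 hlin.1 hlin.2
  refine ⟨B, hBn, hBA.trans hAN, fun K A' J b hKn hA'n hKN hχK hA'c hA'i hb ⟨π, hπ, hπb, hχπ⟩ => ?_⟩
  have hKk : K ≤ kerf χ := fun x hx y => hχK y trivial x hx
  have hKB : K ≤ B := (le_inf hKN hKk).trans hB0
  have hχN : Ch N χ := hχ.1.mono le_top
  have hG : (0 : ℝ) < Fintype.card G := by exact_mod_cast Fintype.card_pos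
  have hP : ∀ x : G, ∃ π', Ir N π' ∧ KInv N K π' ∧ π' 1 = b ∧ ip A π' (cj x l) ≠ 0 := by
    intro x
    have e1 : ip A χ (cj x l) = ip A χ l := by
      rw [← ip_cj x χ l]
      exact ip_congr (fun y _ => (hχ.1.cl x trivial y trivial).symm) (fun _ _ => rfl)
    obtain ⟨π', h1, h2, h3⟩ := hχN.cl.exists_con hAN (g := cj x l) (by rw [e1]; exact hχl)
    obtain ⟨g, -, hg⟩ := clifford_conj le_top hχ hπ h1 hχπ h2
    refine ⟨π', h1, h1.kinv hKN (fun y _ z hz => hχK y trivial z hz) h2, ?_, h3⟩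
    rw [hg 1 N.one_mem, ← hπb]
    simp [cj]
  have hb0 : 0 < b := by
    obtain ⟨b', hb'0, hb'⟩ := hπ.deg_pos
    have : (b : ℂ) = b' := hπb.symm.trans hb'
    have : b = b' := by exact_mod_cast this
    omega
  refine ⟨hKB, ?_, fun ψ hψ hψK e hψe => ?_⟩
  · have hx : ∀ x : G, Real.log (cls (rel N B l) x) ≤ Real.log b + Real.log (cls (rel N A l) x) := by
      intro x
      obtain ⟨π', h1, -, h3, h4⟩ := hP x
      obtain ⟨m, hm⟩ := (h1.1.mono hAN).ip_nat (hlin.conj x).ir.1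
      have hm0 : m ≠ 0 := by
        rintro rfl
        exact h4 (by rw [hm, Nat.cast_zero])
      have h5 := orbit_le hAN h1.1 (hlin.conj x).ir hm (e := 1)
        (by rw [Nat.cast_one]; exact (hlin.conj x).1) h3
      have h6 : (stab N A (cj x l)).relIndex N ≤ b :=
        le_trans (by rw [mul_one]; exact Nat.le_mul_of_pos_right _ (Nat.pos_of_ne_zero hm0)) h5
      have h7 : cls (rel N B l) x ≤ b * cls (rel N A l) x := by
        refine (cls_le N B l x).trans ?_
        rw [cls_stab, ← card_mul_relIndex (H := stab N A (cj x l)) (fun g hg => hg.1), mul_comm]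
        exact Nat.mul_le_mul_right _ h6
      have p1 : (0 : ℝ) < cls (rel N A l) x := by exact_mod_cast cls_pos _ _
      have p2 : (0 : ℝ) < cls (rel N B l) x := by exact_mod_cast cls_pos _ _
      have p3 : (0 : ℝ) < b := by exact_mod_cast hb0
      rw [← Real.log_mul p3.ne' p1.ne']
      exact Real.log_le_log p2 (by exact_mod_cast h7)
    have h1 := hmin A hA0 le_rfl
    unfold pot at h1
    rw [Subgroup.relIndex_self, Nat.cast_one, Real.log_one, mul_zero] at h1
    have h2 := sum_le_sum fun x (_ : x ∈ (univ : Finset G)) => hx x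
    rw [sum_add_distrib, sum_const, card_univ, nsmul_eq_mul] at h2
    have h3 : Real.log (B.relIndex A) ≤ Real.log ((b : ℝ) ^ 4) := by
      rw [Real.log_pow]
      refine le_of_mul_le_mul_left ?_ hG
      push_cast
      linarith
    have p3 : (0 : ℝ) < b := by exact_mod_cast hb0
    have h4 : B.relIndex A ≤ b ^ 4 := by
      have := (Real.log_le_log_iff (by exact_mod_cast relIndex_pos B A) (by positivity)).1 h3
      exact_mod_cast this
    rw [← Subgroup.relIndex_mul_relIndex B A N hBA hAN, mul_comm]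
    exact Nat.mul_le_mul ((hAi A' hA'n (hA'c.trans hKk)).trans hA'i) h4
  · obtain ⟨B', hB'0, hB'B, hB'i, hB'⟩ := exists_small hB0 hψ hψe
    have he0 : 0 < e := by
      obtain ⟨b', hb'0, hb'⟩ := hψ.deg_pos
      have : (e : ℂ) = b' := hψe.symm.trans hb'
      have : e = b' := by exact_mod_cast this
      omega
    have pe : (0 : ℝ) < e := by exact_mod_cast he0
    have h1 := hmin B' hB'0 (hB'B.trans hBA)
    unfold pot at h1
    have h2 : Real.log (B'.relIndex A) ≤ 2 * Real.log e + Real.log (B.relIndex A) := by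
      have q1 : (0 : ℝ) < B.relIndex A := by exact_mod_cast relIndex_pos B A
      have q2 : (0 : ℝ) < B'.relIndex A := by exact_mod_cast relIndex_pos B' A
      have q3 : B'.relIndex A ≤ e ^ 2 * B.relIndex A := by
        rw [← Subgroup.relIndex_mul_relIndex B' B A hB'B hBA]
        exact Nat.mul_le_mul_right _ hB'i
      have q4 := Real.log_le_log q2 (show (B'.relIndex A : ℝ) ≤ (e : ℝ) ^ 2 * B.relIndex A by
        exact_mod_cast q3)
      rw [Real.log_mul (by positivity) q1.ne', Real.log_pow] at q4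
      exact_mod_cast q4
    obtain ⟨x, -, hx⟩ : ∃ x ∈ (univ : Finset G), 2 * Real.log (cls (rel N B' l) x) ≤
        Real.log e + 2 * Real.log (cls (rel N B l) x) := by
      refine exists_le_of_sum_le univ_nonempty ?_
      rw [sum_add_distrib, sum_const, card_univ, nsmul_eq_mul, ← mul_sum, ← mul_sum]
      have := mul_le_mul_of_nonneg_left h2 hG.le
      linarith
    have hx2 : cls (rel N B' l) x ^ 2 ≤ e * cls (rel N B l) x ^ 2 := by
      have p1 : (0 : ℝ) < cls (rel N B' l) x := by exact_mod_cast cls_pos _ _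
      have p2 : (0 : ℝ) < cls (rel N B l) x := by exact_mod_cast cls_pos _ _
      have q1 : Real.log ((cls (rel N B' l) x : ℝ) ^ 2) ≤
          Real.log (e * (cls (rel N B l) x : ℝ) ^ 2) := by
        rw [Real.log_mul pe.ne' (by positivity), Real.log_pow, Real.log_pow]
        exact_mod_cast hx
      have := (Real.log_le_log_iff (by positivity) (by positivity)).1 q1
      exact_mod_cast this
    obtain ⟨π', g1, g2, g3, g4⟩ := hP x
    have hlx : Lin A (cj x l) := hlin.conj x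
    have hlB : Lin B (cj x l) := hlx.mono hBA
    have hlx1 : ∀ y ∈ N ⊓ kerf χ, cj x l y = 1 := fun y hy =>
      hl1 _ ((inferInstance : (N ⊓ kerf χ).Normal).conj_mem y hy x)
    have g5 : ip B π' (cj x l) ≠ 0 := by
      obtain ⟨m, hm⟩ := (g1.1.mono hAN).ip_nat hlx.ir.1
      obtain ⟨c', hc'⟩ := (g1.1.mono (hBA.trans hAN)).ip_nat hlB.ir.1
      have hm0 : m ≠ 0 := by
        rintro rfl
        exact g4 (by rw [hm, Nat.cast_zero])
      have q := (g1.1.mono hAN).con_le hlx.ir hBA hlB.ir.1 hm (a := 1)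
        (by rw [Nat.cast_one]; exact hlB.ir.2) hc'
      rw [hc']
      exact Nat.cast_ne_zero.2 (by omega)
    have hdeg := deg_ineq (hBA.trans hAN) hKB hb g1 g2 g3 hlB g5 hψ hψK hψe
    have hr : Nat.card (stab N B (cj x l)) * (stab N B (cj x l)).relIndex
        (stab N B ψ ⊓ stab N B (fun y => ψ y * cj x l y)) ≤ cls (rel N B' l) x := by
      classical
      rw [cls_rel]
      refine card_mul_le _ _ _ fun t ht g hg => ?_
      rw [mem_filter]
      refine ⟨mem_univ _, N.mul_mem ht.1 hg.1.1, fun a ha => ?_⟩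
      have haB : a ∈ B := hB'B ha
      have hμ := hB' (fun y => cj x l (g * y * g⁻¹) * cj x l y⁻¹) ⟨by simp [hlB.1], fun y hy z hz => by
        have e1 : g * (y * z) * g⁻¹ = (g * y * g⁻¹) * (g * z * g⁻¹) := by group
        show cj x l (g * (y * z) * g⁻¹) * cj x l (y * z)⁻¹ = _
        rw [e1, hlB.2 _ (hBn.conj_mem y hy g) _ (hBn.conj_mem z hz g), mul_inv_rev,
          hlB.2 _ (B.inv_mem hz) _ (B.inv_mem hy)]
        ring⟩ (fun y hy => by
          show cj x l (g * y * g⁻¹) * cj x l y⁻¹ = 1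
          rw [hlx1 _ ((inferInstance : (N ⊓ kerf χ).Normal).conj_mem y hy g),
            hlx1 _ ((N ⊓ kerf χ).inv_mem hy), mul_one]) (fun y hy => by
          have e1 : ψ (g * y * g⁻¹) * cj x l (g * y * g⁻¹) = ψ y * cj x l y := hg.2.2 y hy
          rw [hg.1.2 y hy] at e1
          show ψ y * (cj x l (g * y * g⁻¹) * cj x l y⁻¹) = ψ y
          rw [← mul_assoc, e1, mul_assoc, mul_comm (cj x l y), hlB.inv_mul hy, mul_one]) a ha
      have e2 : t * g * a * (t * g)⁻¹ = t * (g * a * g⁻¹) * t⁻¹ := by group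
      rw [e2, ht.2 _ (hBn.conj_mem a haB g)]
      have e3 : cj x l (g * a * g⁻¹) * cj x l a⁻¹ = 1 := hμ
      have e4 := hlB.inv_mul haB
      calc cj x l (g * a * g⁻¹) = cj x l (g * a * g⁻¹) * (cj x l a⁻¹ * cj x l a) := by
            rw [e4, mul_one]
        _ = cj x l a := by rw [← mul_assoc, e3, one_mul]
    rw [← cls_stab] at hr
    have hp := cls_pos (rel N B l) x
    generalize (stab N B (cj x l)).relIndex (stab N B ψ ⊓ stab N B (fun y => ψ y * cj x l y)) = r
      at hdeg hr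
    generalize cls (rel N B l) x = u at hr hx2 hp
    generalize cls (rel N B' l) x = v at hr hx2
    have hr2 : r ^ 2 ≤ e := by
      refine Nat.le_of_mul_le_mul_right (c := u ^ 2) ?_ (by positivity)
      calc r ^ 2 * u ^ 2 = (u * r) ^ 2 := by ring
        _ ≤ v ^ 2 := Nat.pow_le_pow_left hr 2
        _ ≤ e * u ^ 2 := hx2
    refine Nat.le_of_mul_le_mul_right (c := e) ?_ he0
    calc e ^ 3 * e = (e ^ 2) ^ 2 := by ring
      _ ≤ (b * r) ^ 2 := Nat.pow_le_pow_left hdeg 2
      _ = b ^ 2 * r ^ 2 := by ring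
      _ ≤ b ^ 2 * e := Nat.mul_le_mul_left _ hr2

end Pool.Agent.Lib.MP_d87a8f_pr.E
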