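import Mathlib
import Pool.Agent.Lib.MP_d87a8f_pr.E.Step

/-!
Few normal subgroups are enough to find an Abelian normal subgroup of small index in every
quotient that has one.
-/

namespace Pool.Agent.Lib.MP_d87a8f_pr.E

open Finset

variable {G : Type} [Group G] [Fintype G]

theorem enc_aux (J t : ℕ) (hJ : 1 ≤ J) : ∃ F : Finset (Subgroup G),
    F.card ≤ Fintype.card G ^ t ∧ (∀ N ∈ F, N.Normal ∧ N.index ≤ J ^ (5 * t)) ∧
    ∀ K A : Subgroup G, K.Normal → A.Normal → ⁅A, A⁆ ≤ K → A.index ≤ J → ∃ N ∈ F, K ≤ N ∧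
      ∀ θ, Ir N θ → KInv N K θ → ∀ e : ℕ, θ 1 = e → e ≤ J ∧ e ^ 3 ^ t ≤ J ^ 2 ^ t := by
  classical
  induction t with
  | zero =>
    refine ⟨{⊤}, by simp, fun N hN => ?_, fun K A _ _ hAK hA => ⟨⊤, mem_singleton_self _, le_top,
      fun θ hθ hi e he => ?_⟩⟩
    · rw [mem_singleton.1 hN]
      exact ⟨inferInstance, by simp⟩
    · have := (deg_le_of_comm hAK hθ hi he).trans hA
      simpa using this
  | succ t ih =>
    obtain ⟨F, hc, hF, h⟩ := ih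
    obtain ⟨I⟩ := exists_bas (⊤ : Subgroup G)
    choose Φ hΦ using fun (N : {N : Subgroup G // N.Normal}) (i : Fin I.s) =>
      @step G _ _ N.1 N.2 _ (I.ir i)
    refine ⟨((F.attach ×ˢ (univ : Finset (Fin I.s))).image fun p =>
      Φ ⟨p.1.1, (hF _ p.1.2).1⟩ p.2).filter fun B => B.Normal ∧ B.index ≤ J ^ (5 * (t + 1)), ?_,
      fun N hN => (mem_filter.1 hN).2, fun K A hK hA hAK hJA => ?_⟩
    · refine (card_filter_le _ _).trans (card_image_le.trans ?_)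
      rw [card_product, card_attach, card_univ, Fintype.card_fin, pow_succ]
      refine Nat.mul_le_mul hc (I.le.trans_eq ?_)
      rw [Subgroup.card_top, Nat.card_eq_fintype_card]
    · obtain ⟨N, hN, hKN, hb⟩ := h K A hK hA hAK hJA
      let P : ℕ → Prop := fun a => ∃ θ, Ir N θ ∧ KInv N K θ ∧ θ 1 = a
      have h1 : P 1 := ⟨fun _ => 1, Lin.ir ⟨rfl, by simp⟩, fun _ _ _ _ => rfl, by simp⟩
      obtain ⟨π, hπ, hπK, hπb⟩ := Nat.findGreatest_spec hJ h1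
      obtain ⟨χ, hχ, hχK, hip⟩ := exists_over le_top hKN hπ hπK
      obtain ⟨i, hi⟩ := hχ.exists_eq I
      obtain rfl : χ = I.χ i := funext fun x => hi x trivial
      obtain ⟨n1, n2, n3⟩ := hΦ ⟨N, (hF N hN).1⟩ i
      obtain ⟨b1, b2⟩ := hb π hπ hπK _ hπb
      obtain ⟨k1, k2, k3⟩ := n3 K A J _ hK hA hKN hχK hAK hJA
        (fun θ hθ hk a ha => Nat.le_findGreatest (hb θ hθ hk a ha).1 ⟨θ, hθ, hk, ha⟩)
        ⟨π, hπ, hπb, hip⟩
      refine ⟨_, mem_filter.2 ⟨mem_image.2 ⟨(⟨N, hN⟩, i), by simp, rfl⟩, n1, ?_⟩, k1,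
        fun ψ hψ hk e he => ⟨?_, ?_⟩⟩
      · rw [← Subgroup.relIndex_mul_index n2, show 5 * (t + 1) = 1 + 4 + 5 * t by ring, pow_add,
          pow_add, pow_one]
        exact Nat.mul_le_mul (k2.trans (Nat.mul_le_mul_left _ (Nat.pow_le_pow_left b1 4)))
          (hF N hN).2
      · exact (Nat.pow_le_pow_iff_left (by norm_num : 3 ≠ 0)).1 ((k3 ψ hψ hk e he).trans
          ((Nat.pow_le_pow_left b1 2).trans (Nat.pow_le_pow_right hJ (by norm_num))))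
      · rw [pow_succ' 3, pow_mul, pow_succ 2, pow_mul]
        refine (Nat.pow_le_pow_left (k3 ψ hψ hk e he) _).trans ?_
        rw [← pow_mul, mul_comm, pow_mul]
        exact Nat.pow_le_pow_left b2 2

theorem enc (J C : ℕ) (hJ : 1 ≤ J) (hC : J ^ 2 ^ C < 2 ^ 3 ^ C) : ∃ F : Finset (Subgroup G),
    F.card ≤ Fintype.card G ^ C ∧ (∀ N ∈ F, N.Normal ∧ N.index ≤ J ^ (5 * C)) ∧
    ∀ K A : Subgroup G, K.Normal → A.Normal → ⁅A, A⁆ ≤ K → A.index ≤ J →
      ∃ N ∈ F, ⁅N, N⁆ ≤ K := by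
  obtain ⟨F, hc, hF, h⟩ := enc_aux (G := G) J C hJ
  refine ⟨F, hc, hF, fun K A hK hA hAK hJA => ?_⟩
  obtain ⟨N, hN, hKN, hb⟩ := h K A hK hA hAK hJA
  refine ⟨N, hN, comm_le_of_deg hKN fun θ hθ hk => ?_⟩
  obtain ⟨n, hn, e⟩ := hθ.deg_pos
  have := lt_of_pow_lt_pow_left₀ _ (by norm_num) ((hb θ hθ hk n e).2.trans_lt hC)
  rw [e, show n = 1 by omega, Nat.cast_one]

open Classical in
/-- the tensor power trick -/
theorem tensor {ι : Type} (s : Finset ι) (K A : ι → Subgroup G) (J m C F : ℕ) (hJ : 1 ≤ J)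
    (hK : ∀ i ∈ s, (K i).Normal) (hA : ∀ i ∈ s, (A i).Normal) (hAK : ∀ i ∈ s, ⁅A i, A i⁆ ≤ K i)
    (hI : ∀ i ∈ s, (A i).index ≤ J) (hC : (J ^ m) ^ 2 ^ C < 2 ^ 3 ^ C)
    (hF : ∀ N : Subgroup G, N.Normal → N.index ≤ (J ^ m) ^ (5 * C) →
      (s.filter fun i => ⁅N, N⁆ ≤ K i).card ≤ F) :
    s.card ^ m ≤ Fintype.card G ^ C * F ^ m := by
  obtain ⟨T, hc, hT, h⟩ := enc (G := G) (J ^ m) C (Nat.one_le_pow _ _ hJ) hC
  have hs : (Fintype.piFinset fun _ : Fin m => s) ⊆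
      T.biUnion fun N => Fintype.piFinset fun _ : Fin m => s.filter fun i => ⁅N, N⁆ ≤ K i := by
    intro f hf
    have hf' := Fintype.mem_piFinset.1 hf
    obtain ⟨N, hN, hNK⟩ := h (⨅ j, K (f j)) (⨅ j, A (f j))
      (Subgroup.normal_iInf_normal fun j => hK _ (hf' j))
      (Subgroup.normal_iInf_normal fun j => hA _ (hf' j))
      (le_iInf fun j => (Subgroup.commutator_mono (iInf_le _ j) (iInf_le _ j)).trans
        (hAK _ (hf' j)))
      ((Subgroup.index_iInf_le _).trans ((prod_le_pow_card _ _ J fun j _ =>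
        hI _ (hf' j)).trans_eq (by simp)))
    exact mem_biUnion.2 ⟨N, hN, Fintype.mem_piFinset.2 fun j =>
      mem_filter.2 ⟨hf' j, hNK.trans (iInf_le _ j)⟩⟩
  have h1 := (card_le_card hs).trans (card_biUnion_le_card_mul _ _ (F ^ m) fun N hN => by
    rw [Fintype.card_piFinset_const]
    exact Nat.pow_le_pow_left (hF N (hT N hN).1 (hT N hN).2) m)
  rw [Fintype.card_piFinset_const] at h1
  exact h1.trans (Nat.mul_le_mul_right _ hc)

end Pool.Agent.Lib.MP_d87a8f_pr.E
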